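import Mathlib

set_option autoImplicit false

/-!
The core of the proof: gluing of Lipschitz functions along a sequence of finitely supported measures on a bounded
uniformly separated metric space.
-/

namespace Pool.Agent.V8H58.FS

open Filter Topology

noncomputable section

variable {M : Type*} [MetricSpace M] {𝕜 : Type*} [RCLike 𝕜]

/-- bounded sequences converge along an ultrafilter -/
theorem ulim {E : Type*} [NormedAddCommGroup E] [ProperSpace E] (U : Ultrafilter ℕ) (u : ℕ → E) (C : ℝ)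
    (h : ∀ j, ‖u j‖ ≤ C) : ∃ z : E, ‖z‖ ≤ C ∧ Tendsto u U (𝓝 z) := by
  have hc : IsCompact (Metric.closedBall (0 : E) C) := isCompact_closedBall 0 C
  obtain ⟨z, hz, h1⟩ := hc.ultrafilter_le_nhds (U.map u) (by
    rw [le_principal_iff]
    rw [Ultrafilter.coe_map, Filter.mem_map]
    apply Filter.univ_mem' (fun j => ?_)
    simpa using h j)
  exact ⟨z, by simpa using hz, h1⟩

/-- a geometric bound for the number of indices -/
theorem geom_aux (v : ℕ → ℝ) (R : ℝ) (A : Finset ℕ) : (∀ a ∈ A, v a ≤ R) →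
    (∀ a ∈ A, ∀ b ∈ A, a < b → v b ≤ 3 / 4 * v a) → ∀ w : ℝ, w ≤ R → (∀ a ∈ A, w ≤ 3 / 4 * v a) →
    w ≤ (3 / 4) ^ A.card * R := by
  induction A using Finset.induction_on_max with
  | empty => intro _ _ w hw _; simpa using hw
  | insert m A' hm ih =>
    intro h1 h2 w _ hw
    have hnot : m ∉ A' := fun h => lt_irrefl _ (hm m h)
    have h3 := ih (fun a ha => h1 a (Finset.mem_insert_of_mem ha))
      (fun a ha b hb => h2 a (Finset.mem_insert_of_mem ha) b (Finset.mem_insert_of_mem hb)) (v m)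
      (h1 m (Finset.mem_insert_self _ _))
      (fun a ha => h2 a (Finset.mem_insert_of_mem ha) m (Finset.mem_insert_self _ _) (hm a ha))
    rw [Finset.card_insert_of_notMem hnot, pow_succ]
    have h4 := hw m (Finset.mem_insert_self _ _)
    linarith

theorem geom_card (v : ℕ → ℝ) (R c : ℝ) (κ : ℕ) (A : Finset ℕ) (h1 : ∀ a ∈ A, v a ≤ R)
    (h2 : ∀ a ∈ A, ∀ b ∈ A, a < b → v b ≤ 3 / 4 * v a) (hc : ∀ a ∈ A, c < v a) (hR : 0 ≤ R)
    (hκ : (3 / 4 : ℝ) ^ κ * R ≤ c) : A.card ≤ κ := by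
  by_contra hcon
  push Not at hcon
  have hne : A.Nonempty := Finset.card_pos.mp (by omega)
  set m := A.max' hne with hm
  have hmA : m ∈ A := Finset.max'_mem _ _
  have h3 := geom_aux v R (A.erase m) (fun a ha => h1 a (Finset.mem_of_mem_erase ha))
    (fun a ha b hb => h2 a (Finset.mem_of_mem_erase ha) b (Finset.mem_of_mem_erase hb)) (v m) (h1 m hmA)
    (fun a ha => h2 a (Finset.mem_of_mem_erase ha) m hmA (lt_of_le_of_ne (Finset.le_max' _ _
      (Finset.mem_of_mem_erase ha)) (Finset.ne_of_mem_erase ha)))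
  rw [Finset.card_erase_of_mem hmA] at h3
  have h4 : (3 / 4 : ℝ) ^ (A.card - 1) ≤ (3 / 4) ^ κ :=
    pow_le_pow_of_le_one (by norm_num) (by norm_num) (by omega)
  have h5 : (3 / 4 : ℝ) ^ (A.card - 1) * R ≤ (3 / 4) ^ κ * R := mul_le_mul_of_nonneg_right h4 hR
  have h6 := hc m hmA
  linarith

/-- the points near a point of `S` where `h` is large -/
def Nb (S : Finset M) (h : M → 𝕜) : Set M := {y | ∃ x ∈ S, x ≠ y ∧ 6 * dist x y < ‖h x‖}

/-- at most `κ` of the sets `Nb` of an admissible sequence have a common point -/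
theorem depth (o : M) {s R η : ℝ} (hηs : η ≤ s) (hR : 0 ≤ R)
    (hsep : ∀ x y : M, x ≠ y → s ≤ dist x y) (S : ℕ → Finset M) (hS : ∀ j, ∀ x ∈ S j, dist x o ≤ R)
    (h : ℕ → M → 𝕜) (h0 : ∀ j, h j o = 0) (hL : ∀ j x y, ‖h j x - h j y‖ ≤ 2 * dist x y)
    (hadm : ∀ a b, a < b → ∀ x ∈ S a, ‖h b x‖ ≤ η) (κ : ℕ) (hκ : (3 / 4 : ℝ) ^ κ * (2 * R) ≤ 6 * s)
    (A : Finset ℕ) (y : M) (hA : ∀ a ∈ A, y ∈ Nb (S a) (h a)) : A.card ≤ κ := by
  classical
  have hch : ∀ a : ℕ, ∃ x : M, a ∈ A → x ∈ S a ∧ x ≠ y ∧ 6 * dist x y < ‖h a x‖ := by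
    intro a
    by_cases ha : a ∈ A
    · obtain ⟨x, hx⟩ := hA a ha
      exact ⟨x, fun _ => hx⟩
    · exact ⟨o, fun h => absurd h ha⟩
  choose x hx using hch
  apply geom_card (fun a => ‖h a (x a)‖) (2 * R) (6 * s) κ A
  · intro a ha
    have h1 := hL a (x a) o
    rw [h0, sub_zero] at h1
    have h2 := hS a (x a) (hx a ha).1
    linarith
  · intro a ha b hb hab
    obtain ⟨a1, a2, a3⟩ := hx a ha
    obtain ⟨b1, b2, b3⟩ := hx b hb
    have h1 := hL b (x b) (x a)
    have h2 := hadm a b hab (x a) a1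
    have h3 : ‖h b (x b)‖ ≤ ‖h b (x b) - h b (x a)‖ + ‖h b (x a)‖ := by
      simpa using norm_add_le (h b (x b) - h b (x a)) (h b (x a))
    have h4 : dist (x b) (x a) ≤ dist (x b) y + dist (x a) y := by
      rw [dist_comm (x a) y]; exact dist_triangle _ _ _
    have h5 := hsep (x a) y a2
    linarith
  · intro a ha
    obtain ⟨a1, a2, a3⟩ := hx a ha
    have h5 := hsep (x a) y a2
    linarith
  · positivity
  · exact hκ

/-- the mass of the `l`-th measure in the set `A` -/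
def tvs (S : ℕ → Finset M) (e : ℕ → M → 𝕜) (l : ℕ) (A : Set M) : ℝ :=
  ∑ x ∈ S l, A.indicator (fun x => ‖e l x‖) x

omit [MetricSpace M] in
theorem tvs_nonneg (S : ℕ → Finset M) (e : ℕ → M → 𝕜) (l : ℕ) (A : Set M) : 0 ≤ tvs S e l A :=
  Finset.sum_nonneg fun x _ => Set.indicator_nonneg (fun _ _ => norm_nonneg _) x

omit [MetricSpace M] in
theorem tvs_le (S : ℕ → Finset M) (e : ℕ → M → 𝕜) (l : ℕ) (A : Set M) :
    tvs S e l A ≤ ∑ x ∈ S l, ‖e l x‖ :=
  Finset.sum_le_sum fun x _ => Set.indicator_le_self' (fun _ _ => norm_nonneg _) x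

/-- the mass in the sets `Nb` is small in the limit -/
theorem small_mass (U : Ultrafilter ℕ) (o : M) {s R T : ℝ} (hs : 0 < s) (hR : 0 ≤ R)
    (hsep : ∀ x y : M, x ≠ y → s ≤ dist x y) (S : ℕ → Finset M) (hS : ∀ j, ∀ x ∈ S j, dist x o ≤ R)
    (h : ℕ → M → 𝕜) (h0 : ∀ j, h j o = 0) (hL : ∀ j x y, ‖h j x - h j y‖ ≤ 2 * dist x y)
    (hlim : ∀ x, Tendsto (fun j => h j x) U (𝓝 0)) (e : ℕ → M → 𝕜) (hT : ∀ j, ∑ x ∈ S j, ‖e j x‖ ≤ T)
    (m : ℕ → ℝ) (hm : ∀ i, Tendsto (fun l => tvs S e l (Nb (S i) (h i))) U (𝓝 (m i))) (ε : ℝ) (hε : 0 < ε) :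
    ∀ᶠ i in (U : Filter ℕ), m i < ε := by
  classical
  by_contra hcon
  rw [← Ultrafilter.eventually_not] at hcon
  -- an admissible sequence
  have hseq := exists_seq_of_forall_finset_exists (fun i : ℕ => ¬ m i < ε)
    (fun a b : ℕ => ∀ x ∈ S a, ‖h b x‖ ≤ s) (by
      intro F _
      have h1 : ∀ᶠ b in (U : Filter ℕ), ∀ a ∈ F, ∀ x ∈ S a, ‖h b x‖ ≤ s := by
        rw [Filter.eventually_all_finset]
        intro a _
        rw [Filter.eventually_all_finset]
        intro x _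
        have := (hlim x).norm
        rw [norm_zero] at this
        filter_upwards [this.eventually_lt_const hs] with b hb using hb.le
      exact (hcon.and h1).exists)
  obtain ⟨i, hi1, hi2⟩ := hseq
  -- the depth
  obtain ⟨κ, hκ⟩ : ∃ κ : ℕ, (3 / 4 : ℝ) ^ κ * (2 * R) ≤ 6 * s := by
    have h1 : Tendsto (fun κ : ℕ => (3 / 4 : ℝ) ^ κ * (2 * R)) atTop (𝓝 0) := by
      have := (tendsto_pow_atTop_nhds_zero_of_lt_one (r := (3 / 4 : ℝ)) (by norm_num) (by norm_num)).mul_const (2 * R)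
      simpa using this
    exact ((h1.eventually_lt_const (show (0:ℝ) < 6 * s by positivity)).exists).imp fun κ h => h.le
  have hdep : ∀ (A : Finset ℕ) (y : M), (∀ a ∈ A, y ∈ Nb (S (i a)) (h (i a))) → A.card ≤ κ := by
    intro A y hA
    exact depth o le_rfl hR hsep (fun a => S (i a)) (fun j => hS (i j)) (fun a => h (i a))
      (fun a => h0 (i a)) (fun a => hL (i a)) (fun a b hab => hi2 a b hab) κ hκ A y hA
  have hT0 : 0 ≤ T := le_trans (Finset.sum_nonneg fun x _ => norm_nonneg _) (hT 0)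
  obtain ⟨n, hn⟩ := exists_nat_gt (κ * T / (ε / 2))
  have h1 : ∀ᶠ l in (U : Filter ℕ), ∀ a ∈ Finset.range n, ε / 2 < tvs S e l (Nb (S (i a)) (h (i a))) := by
    rw [Filter.eventually_all_finset]
    intro a _
    apply (hm (i a)).eventually_const_lt
    have := hi1 a
    simp only [not_lt] at this
    linarith
  obtain ⟨l, hl⟩ := h1.exists
  have h2 : (n : ℝ) * (ε / 2) ≤ ∑ a ∈ Finset.range n, tvs S e l (Nb (S (i a)) (h (i a))) := by
    have := Finset.sum_le_sum (fun a ha => (hl a ha).le)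
    simpa using this
  have h3 : ∑ a ∈ Finset.range n, tvs S e l (Nb (S (i a)) (h (i a))) ≤ κ * T := by
    unfold tvs
    rw [Finset.sum_comm]
    calc ∑ y ∈ S l, ∑ a ∈ Finset.range n, (Nb (S (i a)) (h (i a))).indicator (fun x => ‖e l x‖) y
        ≤ ∑ y ∈ S l, κ * ‖e l y‖ := by
          apply Finset.sum_le_sum
          intro y _
          have e1 : ∑ a ∈ Finset.range n, (Nb (S (i a)) (h (i a))).indicator (fun x => ‖e l x‖) y =
              (((Finset.range n).filter (fun a => y ∈ Nb (S (i a)) (h (i a)))).card : ℝ) * ‖e l y‖ := by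
            rw [← nsmul_eq_mul, ← Finset.sum_const, Finset.sum_filter]
            apply Finset.sum_congr rfl
            intro a _
            by_cases hy : y ∈ Nb (S (i a)) (h (i a))
            · rw [Set.indicator_of_mem hy, if_pos hy]
            · rw [Set.indicator_of_notMem hy, if_neg hy]
          rw [e1]
          apply mul_le_mul_of_nonneg_right _ (norm_nonneg _)
          have := hdep ((Finset.range n).filter (fun a => y ∈ Nb (S (i a)) (h (i a)))) y
            (fun a ha => (Finset.mem_filter.mp ha).2)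
          exact_mod_cast this
      _ = κ * ∑ y ∈ S l, ‖e l y‖ := by rw [Finset.mul_sum]
      _ ≤ κ * T := by gcongr; exact hT l
  rw [div_lt_iff₀ (by positivity)] at hn
  linarith

/-- extension of Lipschitz functions with values in `ℝ` or `ℂ` -/
theorem extend_rclike (f : M → 𝕜) (V : Set M) (h : ∀ x ∈ V, ∀ y ∈ V, ‖f x - f y‖ ≤ 9 * dist x y) :
    ∃ F : M → 𝕜, (∀ x y, ‖F x - F y‖ ≤ 18 * dist x y) ∧ ∀ x ∈ V, F x = f x := by
  have h1 : LipschitzOnWith 9 (fun x => RCLike.re (f x)) V := by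
    apply LipschitzOnWith.of_dist_le_mul
    intro x hx y hy
    rw [Real.dist_eq, ← map_sub]
    exact (RCLike.abs_re_le_norm _).trans (by simpa using h x hx y hy)
  have h2 : LipschitzOnWith 9 (fun x => RCLike.im (f x)) V := by
    apply LipschitzOnWith.of_dist_le_mul
    intro x hx y hy
    rw [Real.dist_eq, ← map_sub]
    exact (RCLike.abs_im_le_norm _).trans (by simpa using h x hx y hy)
  obtain ⟨g1, hg1, e1⟩ := h1.extend_real
  obtain ⟨g2, hg2, e2⟩ := h2.extend_real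
  refine ⟨fun x => (g1 x : 𝕜) + (g2 x : 𝕜) * RCLike.I, fun x y => ?_, fun x hx => ?_⟩
  · have a1 := hg1.dist_le_mul x y
    have a2 := hg2.dist_le_mul x y
    rw [Real.dist_eq] at a1 a2
    have e3 : ((g1 x : 𝕜) + (g2 x : 𝕜) * RCLike.I) - ((g1 y : 𝕜) + (g2 y : 𝕜) * RCLike.I) =
        ((g1 x - g1 y : ℝ) : 𝕜) + ((g2 x - g2 y : ℝ) : 𝕜) * RCLike.I := by
      push_cast; ring
    simp only
    rw [e3]
    refine (norm_add_le _ _).trans ?_
    rw [norm_mul, RCLike.norm_ofReal, RCLike.norm_ofReal]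
    have e4 : ‖(RCLike.I : 𝕜)‖ ≤ 1 := by
      rw [RCLike.norm_I]; split_ifs <;> norm_num
    have e5 : |g2 x - g2 y| * ‖(RCLike.I : 𝕜)‖ ≤ |g2 x - g2 y| * 1 :=
      mul_le_mul_of_nonneg_left e4 (abs_nonneg _)
    have e6 : ((9 : NNReal) : ℝ) = 9 := by norm_num
    rw [e6] at a1 a2
    linarith
  · have b1 := e1 hx
    have b2 := e2 hx
    simp only at b1 b2
    simp only
    rw [← b1, ← b2]
    exact RCLike.re_add_im (f x)

end

end Pool.Agent.V8H58.FS
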