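import Mathlib

set_option autoImplicit false

/-!
Lipschitz-free spaces over the real or complex numbers and the quantities measuring weak sequential completeness and
the Schur property.
-/

namespace Pool.Agent.V8H58.FS

open Filter Topology
open scoped ENNReal NNReal

noncomputable section

/-- `ca(x_n) = inf_n sup_{k, l ≥ n} ‖x_k - x_l‖` -/
def ca {X : Type*} [NormedAddCommGroup X] (x : ℕ → X) : ℝ≥0∞ :=
  ⨅ n : ℕ, ⨆ k : ℕ, ⨆ _ : n ≤ k, ⨆ l : ℕ, ⨆ _ : n ≤ l, ENNReal.ofReal ‖x k - x l‖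

section general

variable (𝕜 : Type*) [RCLike 𝕜] (X : Type*) [NormedAddCommGroup X] [NormedSpace 𝕜 X]

/-- the dual space of `X`: the continuous linear functionals with the operator norm -/
def Du : Type _ := StrongDual 𝕜 X

instance : NormedAddCommGroup (Du 𝕜 X) := (inferInstance : NormedAddCommGroup (StrongDual 𝕜 X))
instance : NormedSpace 𝕜 (Du 𝕜 X) := (inferInstance : NormedSpace 𝕜 (StrongDual 𝕜 X))

variable {𝕜 X}

/-- an element of the dual as a continuous linear map -/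
def Du.cl (f : Du 𝕜 X) : StrongDual 𝕜 X := f

/-- the value of a functional -/
def Du.ap (f : Du 𝕜 X) (v : X) : 𝕜 := f.cl v

theorem Du.ap_le (f : Du 𝕜 X) (v : X) : ‖f.ap v‖ ≤ ‖f‖ * ‖v‖ := ContinuousLinearMap.le_opNorm f.cl v
theorem Du.ap_add (f g : Du 𝕜 X) (v : X) : (f + g).ap v = f.ap v + g.ap v := rfl
theorem Du.ap_sub (f g : Du 𝕜 X) (v : X) : (f - g).ap v = f.ap v - g.ap v := rfl
theorem Du.ap_smul (c : 𝕜) (f : Du 𝕜 X) (v : X) : (c • f).ap v = c * f.ap v := rfl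
theorem Du.ap_vsub (f : Du 𝕜 X) (v w : X) : f.ap (v - w) = f.ap v - f.ap w := ContinuousLinearMap.map_sub f.cl v w
theorem Du.norm_le (f : Du 𝕜 X) (C : ℝ) (hC : 0 ≤ C) (h : ∀ v, ‖f.ap v‖ ≤ C * ‖v‖) : ‖f‖ ≤ C :=
  ContinuousLinearMap.opNorm_le_bound f.cl hC h
theorem Du.ext {f g : Du 𝕜 X} (h : ∀ v, f.ap v = g.ap v) : f = g :=
  ContinuousLinearMap.ext (f := f.cl) (g := g.cl) h

/-- a linear functional with a bound, as an element of the dual -/
def Du.mk (f : X →ₗ[𝕜] 𝕜) (C : ℝ) (h : ∀ v, ‖f v‖ ≤ C * ‖v‖) : Du 𝕜 X :=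
  (LinearMap.mkContinuous f C h : StrongDual 𝕜 X)

theorem Du.mk_ap (f : X →ₗ[𝕜] 𝕜) (C : ℝ) (h : ∀ v, ‖f v‖ ≤ C * ‖v‖) (v : X) : (Du.mk f C h).ap v = f v := rfl

variable (𝕜)

/-- `δ(x_n)`: the supremum over the functionals `f` in the closed unit ball of the dual of
`inf_n sup_{k, l ≥ n} |f(x_k) - f(x_l)|` -/
def dl (x : ℕ → X) : ℝ≥0∞ :=
  ⨆ f : Du 𝕜 X, ⨆ _ : ‖f‖ ≤ 1, ⨅ n : ℕ, ⨆ k : ℕ, ⨆ _ : n ≤ k, ⨆ l : ℕ, ⨆ _ : n ≤ l,
    ENNReal.ofReal ‖f.ap (x k) - f.ap (x l)‖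

/-- the set of the weak-star cluster points in the bidual of a sequence `y` in `X`: the elements `z` of the bidual
such that the function `f ↦ z(f)` on the dual is a cluster point of the functions `f ↦ f(y_k)` in the topology of
pointwise convergence on the dual -/
def clust (y : ℕ → X) : Set (Du 𝕜 (Du 𝕜 X)) :=
  {z | MapClusterPt (fun f : Du 𝕜 X => z.ap f) atTop (fun (k : ℕ) (f : Du 𝕜 X) => f.ap (y k))}

/-- the distance of a point `z` of the bidual from the canonical image of `X`: the infimum over `v` in `X` of the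
norm of `z - v` in the bidual, which is the supremum of `|z(f) - f(v)|` over the `f` in the unit ball of the dual -/
def distX (z : Du 𝕜 (Du 𝕜 X)) : ℝ≥0∞ :=
  ⨅ v : X, ⨆ f : Du 𝕜 X, ⨆ _ : ‖f‖ ≤ 1, ENNReal.ofReal ‖z.ap f - f.ap v‖

/-- `wck(x_n)`: the supremum over the subsequences of `(x_n)` of the infimum of the distances from `X` of the
weak-star cluster points of the subsequence in the bidual -/
def wck (x : ℕ → X) : ℝ≥0∞ :=
  ⨆ φ : ℕ → ℕ, ⨆ _ : StrictMono φ, ⨅ z : Du 𝕜 (Du 𝕜 X), ⨅ _ : z ∈ clust 𝕜 (fun k => x (φ k)), distX 𝕜 z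

variable (X)

/-- `X` is `c`-weakly sequentially complete -/
def CWsc (c : ℝ≥0) : Prop :=
  ∀ x : ℕ → X, (∃ B : ℝ, ∀ n, ‖x n‖ ≤ B) → wck 𝕜 x ≤ c * dl 𝕜 x

/-- `X` is quantitatively weakly sequentially complete -/
def QWsc : Prop := ∃ c : ℝ≥0, CWsc 𝕜 X c

/-- `X` has the `c`-Schur property -/
def CSchur (c : ℝ≥0) : Prop :=
  ∀ x : ℕ → X, (∃ B : ℝ, ∀ n, ‖x n‖ ≤ B) → ca x ≤ c * dl 𝕜 x

end general

section lip

variable (𝕜 : Type*) [RCLike 𝕜] (M : Type*) [MetricSpace M] (o : M)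

/-- the vector space of the Lipschitz functions on `M` vanishing at the base point `o` -/
def lipSub : Submodule 𝕜 (M → 𝕜) where
  carrier := {f | f o = 0 ∧ ∃ K : ℝ, 0 ≤ K ∧ ∀ x y, ‖f x - f y‖ ≤ K * dist x y}
  zero_mem' := ⟨rfl, 0, le_rfl, fun x y => by simp⟩
  add_mem' := by
    rintro f g ⟨hf, K, hK, hfK⟩ ⟨hg, L, hL, hgL⟩
    refine ⟨by simp [hf, hg], K + L, by positivity, fun x y => ?_⟩
    have h1 := hfK x y
    have h2 := hgL x y
    have : (f + g) x - (f + g) y = (f x - f y) + (g x - g y) := by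
      simp only [Pi.add_apply]; ring
    rw [this]
    calc _ ≤ ‖f x - f y‖ + ‖g x - g y‖ := norm_add_le _ _
      _ ≤ _ := by rw [add_mul]; exact add_le_add h1 h2
  smul_mem' := by
    rintro c f ⟨hf, K, hK, hfK⟩
    refine ⟨by simp [hf], ‖c‖ * K, by positivity, fun x y => ?_⟩
    have h1 := hfK x y
    have : (c • f) x - (c • f) y = c * (f x - f y) := by
      simp only [Pi.smul_apply, smul_eq_mul]; ring
    rw [this, norm_mul, mul_assoc]
    exact mul_le_mul_of_nonneg_left h1 (norm_nonneg _)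

/-- `Lip0 𝕜 M o`: the space of the Lipschitz functions on `M` vanishing at `o`, normed by the least Lipschitz
constant -/
def Lip0 : Type _ := ↥(lipSub 𝕜 M o)

variable {𝕜 M o}

/-- the underlying function -/
def Lip0.fn (f : Lip0 𝕜 M o) : M → 𝕜 := f.1

section raw

/-- pointwise addition -/
local instance lipACG : AddCommGroup (Lip0 𝕜 M o) := Submodule.addCommGroup (lipSub 𝕜 M o)
/-- pointwise scalar multiplication -/
local instance lipMod : Module 𝕜 (Lip0 𝕜 M o) := Submodule.module (lipSub 𝕜 M o)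

/-- the norm: the least Lipschitz constant -/
instance : Norm (Lip0 𝕜 M o) :=
  ⟨fun f => sInf {K : ℝ | 0 ≤ K ∧ ∀ x y, ‖f.fn x - f.fn y‖ ≤ K * dist x y}⟩

theorem Lip0.ext {f g : Lip0 𝕜 M o} (h : ∀ x, f.fn x = g.fn x) : f = g :=
  Subtype.ext (funext h)

theorem Lip0.fn_add' (f g : Lip0 𝕜 M o) (x : M) : (f + g).fn x = f.fn x + g.fn x := rfl
theorem Lip0.fn_smul' (c : 𝕜) (f : Lip0 𝕜 M o) (x : M) : (c • f).fn x = c * f.fn x := rfl
theorem Lip0.fn_zero' (x : M) : (0 : Lip0 𝕜 M o).fn x = 0 := rfl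
@[simp] theorem Lip0.fn_base (f : Lip0 𝕜 M o) : f.fn o = 0 := f.2.1

/-- constructor -/
def Lip0.mk (f : M → 𝕜) (h0 : f o = 0) (K : ℝ) (hK : 0 ≤ K)
    (h : ∀ x y, ‖f x - f y‖ ≤ K * dist x y) : Lip0 𝕜 M o := ⟨f, h0, K, hK, h⟩

@[simp] theorem Lip0.fn_mk (f : M → 𝕜) (h0 : f o = 0) (K : ℝ) (hK : 0 ≤ K)
    (h : ∀ x y, ‖f x - f y‖ ≤ K * dist x y) (x : M) :
    (Lip0.mk f h0 K hK h).fn x = f x := rfl

theorem Lip0.set_nonempty (f : Lip0 𝕜 M o) :
    {K : ℝ | 0 ≤ K ∧ ∀ x y, ‖f.fn x - f.fn y‖ ≤ K * dist x y}.Nonempty := by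
  obtain ⟨K, hK, h⟩ := f.2.2
  exact ⟨K, hK, h⟩

theorem Lip0.norm_def (f : Lip0 𝕜 M o) :
    ‖f‖ = sInf {K : ℝ | 0 ≤ K ∧ ∀ x y, ‖f.fn x - f.fn y‖ ≤ K * dist x y} := rfl

theorem Lip0.norm_le' (f : Lip0 𝕜 M o) {K : ℝ} (hK : 0 ≤ K)
    (h : ∀ x y, ‖f.fn x - f.fn y‖ ≤ K * dist x y) : ‖f‖ ≤ K :=
  csInf_le ⟨0, fun _ h => h.1⟩ ⟨hK, h⟩

theorem Lip0.norm_nonneg' (f : Lip0 𝕜 M o) : 0 ≤ ‖f‖ :=
  le_csInf f.set_nonempty fun _ h => h.1

theorem Lip0.norm_sub_le (f : Lip0 𝕜 M o) (x y : M) : ‖f.fn x - f.fn y‖ ≤ ‖f‖ * dist x y := by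
  rcases eq_or_ne x y with rfl | hxy
  · simp
  · have hd : 0 < dist x y := dist_pos.2 hxy
    rw [← div_le_iff₀ hd]
    refine le_csInf f.set_nonempty ?_
    rintro K ⟨_, hK⟩
    rw [div_le_iff₀ hd]
    exact hK x y

theorem Lip0.core : NormedSpace.Core 𝕜 (Lip0 𝕜 M o) where
  norm_nonneg f := f.norm_nonneg'
  norm_smul c f := by
    apply le_antisymm
    · refine Lip0.norm_le' _ (mul_nonneg (norm_nonneg _) f.norm_nonneg') fun x y => ?_
      have h1 := f.norm_sub_le x y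
      have : (c • f).fn x - (c • f).fn y = c * (f.fn x - f.fn y) := by
        simp only [Lip0.fn_smul']; ring
      rw [this, norm_mul, mul_assoc]
      exact mul_le_mul_of_nonneg_left h1 (norm_nonneg _)
    · rcases eq_or_ne c 0 with rfl | hc
      · simp only [norm_zero, zero_mul]; exact Lip0.norm_nonneg' _
      · have hc' : 0 < ‖c‖ := norm_pos_iff.2 hc
        rw [← le_div_iff₀' hc']
        refine Lip0.norm_le' _ (div_nonneg (Lip0.norm_nonneg' _) hc'.le) fun x y => ?_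
        have h1 := (c • f).norm_sub_le x y
        have : (c • f).fn x - (c • f).fn y = c * (f.fn x - f.fn y) := by
          simp only [Lip0.fn_smul']; ring
        rw [this, norm_mul] at h1
        rw [div_mul_eq_mul_div, le_div_iff₀ hc']
        rw [mul_comm]
        exact h1
  norm_triangle f g := by
    refine Lip0.norm_le' _ (add_nonneg f.norm_nonneg' g.norm_nonneg') fun x y => ?_
    have h1 := f.norm_sub_le x y
    have h2 := g.norm_sub_le x y
    have : (f + g).fn x - (f + g).fn y = (f.fn x - f.fn y) + (g.fn x - g.fn y) := by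
      simp only [Lip0.fn_add']; ring
    rw [this]
    calc _ ≤ ‖f.fn x - f.fn y‖ + ‖g.fn x - g.fn y‖ := norm_add_le _ _
      _ ≤ _ := by rw [add_mul]; exact add_le_add h1 h2
  norm_eq_zero_iff f := by
    constructor
    · intro h
      apply Lip0.ext
      intro x
      have h1 := f.norm_sub_le x o
      rw [h, zero_mul, Lip0.fn_base, sub_zero] at h1
      exact norm_le_zero_iff.1 h1
    · rintro rfl
      apply le_antisymm _ (Lip0.norm_nonneg' _)
      refine Lip0.norm_le' _ le_rfl fun x y => by simp [Lip0.fn_zero']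

instance : NormedAddCommGroup (Lip0 𝕜 M o) := NormedAddCommGroup.ofCore (Lip0.core (𝕜 := 𝕜) (M := M) (o := o))
instance : NormedSpace 𝕜 (Lip0 𝕜 M o) := NormedSpace.ofCore (Lip0.core (𝕜 := 𝕜) (M := M) (o := o))

end raw

@[simp] theorem Lip0.fn_add (f g : Lip0 𝕜 M o) (x : M) : (f + g).fn x = f.fn x + g.fn x := rfl
@[simp] theorem Lip0.fn_sub (f g : Lip0 𝕜 M o) (x : M) : (f - g).fn x = f.fn x - g.fn x := rfl
@[simp] theorem Lip0.fn_smul (c : 𝕜) (f : Lip0 𝕜 M o) (x : M) : (c • f).fn x = c * f.fn x := rfl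
@[simp] theorem Lip0.fn_zero (x : M) : (0 : Lip0 𝕜 M o).fn x = 0 := rfl

variable (𝕜 o)

variable (M)

/-- the evaluation functionals: the elements of the dual of `Lip0 𝕜 M o` of the form `f ↦ f(x)` for a point `x`
(there is one for every point `x`, see `ev`) -/
def evals : Set (Du 𝕜 (Lip0 𝕜 M o)) := {φ | ∃ x : M, ∀ f : Lip0 𝕜 M o, φ.ap f = f.fn x}

/-- the closed linear span of the evaluation functionals in the dual of `Lip0 𝕜 M o` -/
def Free : Submodule 𝕜 (Du 𝕜 (Lip0 𝕜 M o)) := (Submodule.span 𝕜 (evals 𝕜 M o)).topologicalClosure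

/-- the Lipschitz-free space over `M`: the closed linear span of the evaluation functionals in the dual of
`Lip0 𝕜 M o`, with the norm of this dual -/
def LipFree : Type _ := ↥(Free 𝕜 M o)

instance : NormedAddCommGroup (LipFree 𝕜 M o) := (inferInstance : NormedAddCommGroup ↥(Free 𝕜 M o))
instance : NormedSpace 𝕜 (LipFree 𝕜 M o) := (inferInstance : NormedSpace 𝕜 ↥(Free 𝕜 M o))

end lip

end

end Pool.Agent.V8H58.FS
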