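import Pool.Agent.V8H58.FS.Core

set_option autoImplicit false

/-!
The bounded case with an absolute constant: the gluing argument.
-/

namespace Pool.Agent.V8H58.FS

open Filter Topology

noncomputable section

variable {M : Type*} [MetricSpace M] {𝕜 : Type*} [RCLike 𝕜]

/-- the selected data: step number, index and a finite set -/
abbrev Sel (M : Type*) := ℕ × ℕ × Finset M

/-- the weak condition for functions with any Lipschitz constant -/
theorem weak_scale (o : M) (S : ℕ → Finset M) (e : ℕ → M → 𝕜) (δ : ℝ)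
    (hW : ∀ f : M → 𝕜, f o = 0 → (∀ x y, ‖f x - f y‖ ≤ dist x y) → ∀ ε : ℝ, 0 < ε →
      ∀ᶠ j in atTop, ‖∑ x ∈ S j, e j x * f x‖ ≤ δ + ε) (C : ℝ) (hC : 0 < C) (F : M → 𝕜) (hFo : F o = 0)
    (hF : ∀ x y, ‖F x - F y‖ ≤ C * dist x y) (ε : ℝ) (hε : 0 < ε) :
    ∀ᶠ j in atTop, ‖∑ x ∈ S j, e j x * F x‖ ≤ C * (δ + ε) := by
  have eC : ‖(C : 𝕜)‖ = C := by rw [RCLike.norm_ofReal, abs_of_pos hC]
  have h1 := hW (fun x => (C : 𝕜)⁻¹ * F x) (by simp [hFo]) (fun x y => by
    rw [← mul_sub, norm_mul, norm_inv, eC, inv_mul_le_iff₀ hC]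
    exact hF x y) ε hε
  filter_upwards [h1] with j hj
  have e1 : ∑ x ∈ S j, e j x * ((C : 𝕜)⁻¹ * F x) = (C : 𝕜)⁻¹ * ∑ x ∈ S j, e j x * F x := by
    rw [Finset.mul_sum]
    apply Finset.sum_congr rfl
    intro x _
    ring
  rw [e1, norm_mul, norm_inv, eC, inv_mul_le_iff₀ hC] at hj
  exact hj

theorem core (o : M) {s R T : ℝ} (hs : 0 < s) (hR : 0 ≤ R)
    (hsep : ∀ x y : M, x ≠ y → s ≤ dist x y) (S : ℕ → Finset M) (hS : ∀ j, ∀ x ∈ S j, dist x o ≤ R)
    (e : ℕ → M → 𝕜) (he : ∀ j, ∀ x, x ∉ S j → e j x = 0) (hT : ∀ j, ∑ x ∈ S j, ‖e j x‖ ≤ T)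
    (a δ : ℝ) (g : ℕ → M → 𝕜) (hg0 : ∀ j, g j o = 0) (hg : ∀ j x y, ‖g j x - g j y‖ ≤ dist x y)
    (ha : ∀ᶠ j in atTop, a ≤ ‖∑ x ∈ S j, e j x * g j x‖)
    (hW : ∀ f : M → 𝕜, f o = 0 → (∀ x y, ‖f x - f y‖ ≤ dist x y) → ∀ ε : ℝ, 0 < ε →
      ∀ᶠ j in atTop, ‖∑ x ∈ S j, e j x * f x‖ ≤ δ + ε) :
    a ≤ 19 * δ := by
  classical
  have hT0 : 0 ≤ T := le_trans (Finset.sum_nonneg fun x _ => norm_nonneg _) (hT 0)
  -- it suffices to prove the bound up to a multiple of `η`
  suffices hmain : ∀ η : ℝ, 0 < η → η ≤ s → a ≤ 19 * δ + (20 + T + 40 * R) * η by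
    by_contra hcon
    push Not at hcon
    have hK : 0 < 20 + T + 40 * R := by positivity
    have h1 := hmain (min s ((a - 19 * δ) / (2 * (20 + T + 40 * R)))) (lt_min hs (by
      apply div_pos (by linarith) (by positivity))) (min_le_left _ _)
    have h2 : (20 + T + 40 * R) * min s ((a - 19 * δ) / (2 * (20 + T + 40 * R))) ≤ (a - 19 * δ) / 2 := by
      calc _ ≤ (20 + T + 40 * R) * ((a - 19 * δ) / (2 * (20 + T + 40 * R))) := by
            gcongr; exact min_le_right _ _
        _ = _ := by field_simp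
    linarith
  intro η hη hηs
  -- the ultrafilter and the limits
  set U : Ultrafilter ℕ := Ultrafilter.of atTop with hU
  have hUle : (U : Filter ℕ) ≤ atTop := Ultrafilter.of_le atTop
  have hgb : ∀ x j, ‖g j x‖ ≤ dist x o := by
    intro x j
    have := hg j x o
    rwa [hg0, sub_zero] at this
  choose gl hgl1 hgl2 using fun x => ulim U (fun j => g j x) (dist x o) (hgb x)
  have hglo : gl o = 0 := by
    have := hgl1 o
    rw [dist_self] at this
    exact norm_le_zero_iff.mp this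
  have hglL : ∀ x y, ‖gl x - gl y‖ ≤ dist x y := by
    intro x y
    exact le_of_tendsto ((hgl2 x).sub (hgl2 y)).norm (Eventually.of_forall fun j => hg j x y)
  set h : ℕ → M → 𝕜 := fun j x => g j x - gl x with hh
  have h0 : ∀ j, h j o = 0 := by intro j; simp [hh, hg0, hglo]
  have hL : ∀ j x y, ‖h j x - h j y‖ ≤ 2 * dist x y := by
    intro j x y
    have e1 : h j x - h j y = (g j x - g j y) - (gl x - gl y) := by simp only [hh]; ring
    rw [e1]
    have := norm_sub_le (g j x - g j y) (gl x - gl y)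
    linarith [hg j x y, hglL x y]
  have hhb : ∀ j x, ‖h j x‖ ≤ 2 * dist x o := by
    intro j x
    have := hL j x o
    rwa [h0, sub_zero] at this
  have hlim : ∀ x, Tendsto (fun j => h j x) U (𝓝 0) := by
    intro x
    have := (hgl2 x).sub_const (gl x)
    rwa [sub_self] at this
  -- the pairings
  have hpair : ∀ᶠ j in atTop, a - δ - η ≤ ‖∑ x ∈ S j, e j x * h j x‖ := by
    filter_upwards [ha, hW gl hglo hglL η hη] with j h1 h2
    have e1 : ∑ x ∈ S j, e j x * h j x = ∑ x ∈ S j, e j x * g j x - ∑ x ∈ S j, e j x * gl x := by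
      rw [← Finset.sum_sub_distrib]
      apply Finset.sum_congr rfl
      intro x _
      simp only [hh]; ring
    rw [e1]
    have := norm_sub_norm_le (∑ x ∈ S j, e j x * g j x) (∑ x ∈ S j, e j x * gl x)
    linarith
  -- masses
  choose m hm1 hm2 using fun i => ulim U (fun l => tvs S e l (Nb (S i) (h i))) T (fun l => by
    rw [Real.norm_of_nonneg (tvs_nonneg _ _ _ _)]
    exact (tvs_le _ _ _ _).trans (hT l))
  have hsmall := small_mass U o hs hR hsep S hS h h0 hL hlim e hT m hm2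
  -- the limit measure
  have heb : ∀ x l, ‖e l x‖ ≤ T := by
    intro x l
    by_cases hx : x ∈ S l
    · exact (Finset.single_le_sum (f := fun x => ‖e l x‖) (fun x _ => norm_nonneg _) hx).trans (hT l)
    · rw [he l x hx, norm_zero]; exact hT0
  choose el hel1 hel2 using fun x => ulim U (fun l => e l x) T (heb x)
  have hsumle : ∀ A : Finset M, ∀ l, ∑ x ∈ A, ‖e l x‖ ≤ T := by
    intro A l
    have e1 : ∑ x ∈ A, ‖e l x‖ = ∑ x ∈ A ∩ S l, ‖e l x‖ := by
      symm
      apply Finset.sum_subset Finset.inter_subset_left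
      intro x hx hx'
      rw [he l x (fun h => hx' (Finset.mem_inter.mpr ⟨hx, h⟩)), norm_zero]
    rw [e1]
    exact (Finset.sum_le_sum_of_subset_of_nonneg Finset.inter_subset_right
      (fun x _ _ => norm_nonneg _)).trans (hT l)
  have hellim : ∀ A : Finset M, Tendsto (fun l => ∑ x ∈ A, ‖e l x‖) U (𝓝 (∑ x ∈ A, ‖el x‖)) := by
    intro A
    exact tendsto_finsetSum _ fun x _ => (hel2 x).norm
  have helsum : Summable fun x => ‖el x‖ := by
    apply summable_of_sum_le (c := T) (fun x => norm_nonneg _)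
    intro A
    exact le_of_tendsto (hellim A) (Eventually.of_forall fun l => hsumle A l)
  obtain ⟨P1, hP1⟩ := (summable_iff_vanishing_norm.mp helsum) η hη
  set P0 : Finset M := insert o P1 with hP0
  have hP0' : ∀ A : Finset M, ∑ x ∈ A \ P0, ‖el x‖ < η := by
    intro A
    have := hP1 (A \ P0) (by
      rw [Finset.disjoint_left]
      intro x hx hx'
      exact (Finset.mem_sdiff.mp hx).2 (Finset.mem_insert_of_mem hx'))
    rwa [Real.norm_of_nonneg (Finset.sum_nonneg fun x _ => norm_nonneg _)] at this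
  -- the selection
  obtain ⟨σ, hσ1, hσ2⟩ := exists_seq_of_forall_finset_exists
    (fun z : Sel M => P0 ⊆ z.2.2 ∧ m z.2.1 < η / 2 ^ (z.1 + 1) ∧
      (∑ x ∈ z.2.2 \ P0, ‖e z.2.1 x‖ < η) ∧ (∀ x ∈ z.2.2, ‖h z.2.1 x‖ ≤ η) ∧
      a - δ - η ≤ ‖∑ x ∈ S z.2.1, e z.2.1 x * h z.2.1 x‖)
    (fun z w : Sel M => z.1 < w.1 ∧ z.2.1 < w.2.1 ∧ S z.2.1 ⊆ w.2.2 ∧
      tvs S e w.2.1 (Nb (S z.2.1) (h z.2.1)) < η / 2 ^ (z.1 + 1)) (by
      intro F hF
      set n : ℕ := (F.sup fun z => z.1) + 1 with hn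
      set Q : Finset M := P0 ∪ F.biUnion (fun z => S z.2.1) with hQ
      have c1 : ∀ᶠ l in (U : Filter ℕ), m l < η / 2 ^ (n + 1) := hsmall _ (by positivity)
      have c2 : ∀ᶠ l in (U : Filter ℕ), ∑ x ∈ Q \ P0, ‖e l x‖ < η :=
        (hellim (Q \ P0)).eventually_lt_const (hP0' Q)
      have c3 : ∀ᶠ l in (U : Filter ℕ), ∀ x ∈ Q, ‖h l x‖ ≤ η := by
        rw [Filter.eventually_all_finset]
        intro x _
        have := (hlim x).norm
        rw [norm_zero] at this
        filter_upwards [this.eventually_lt_const hη] with l hl using hl.le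
      have c4 : ∀ᶠ l in (U : Filter ℕ), a - δ - η ≤ ‖∑ x ∈ S l, e l x * h l x‖ := hUle hpair
      have c5 : ∀ᶠ l in (U : Filter ℕ), ∀ z ∈ F, z.2.1 < l := by
        rw [Filter.eventually_all_finset]
        intro z _
        exact hUle (eventually_gt_atTop _)
      have c6 : ∀ᶠ l in (U : Filter ℕ), ∀ z ∈ F, tvs S e l (Nb (S z.2.1) (h z.2.1)) < η / 2 ^ (z.1 + 1) := by
        rw [Filter.eventually_all_finset]
        intro z hz
        exact (hm2 z.2.1).eventually_lt_const (hF z hz).2.1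
      obtain ⟨l, d1, d2, d3, d4, d5, d6⟩ := (c1.and (c2.and (c3.and (c4.and (c5.and c6))))).exists
      refine ⟨(n, l, Q), ⟨Finset.subset_union_left, d1, d2, d3, d4⟩, fun z hz => ⟨?_, d5 z hz, ?_, d6 z hz⟩⟩
      · have : z.1 ≤ F.sup fun z => z.1 := Finset.le_sup (f := fun z : Sel M => z.1) hz
        simp only [hn]; omega
      · exact (Finset.subset_biUnion_of_mem (fun z : Sel M => S z.2.1) hz).trans Finset.subset_union_right)
  set l : ℕ → ℕ := fun k => (σ k).2.1 with hl
  set Q : ℕ → Finset M := fun k => (σ k).2.2 with hQ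
  have q1 : ∀ k, P0 ⊆ Q k := fun k => (hσ1 k).1
  have q3 : ∀ k, ∑ x ∈ Q k \ P0, ‖e (l k) x‖ < η := fun k => (hσ1 k).2.2.1
  have q4 : ∀ k, ∀ x ∈ Q k, ‖h (l k) x‖ ≤ η := fun k => (hσ1 k).2.2.2.1
  have q5 : ∀ k, a - δ - η ≤ ‖∑ x ∈ S (l k), e (l k) x * h (l k) x‖ := fun k => (hσ1 k).2.2.2.2
  have q6 : ∀ i k, i < k → S (l i) ⊆ Q k := fun i k hik => (hσ2 i k hik).2.2.1
  have hn : ∀ k, k ≤ (σ k).1 := by
    intro k
    induction k with
    | zero => exact Nat.zero_le _
    | succ k ih => have := (hσ2 k (k + 1) (Nat.lt_succ_self k)).1; omega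
  have hlk : ∀ k, k ≤ l k := by
    intro k
    induction k with
    | zero => exact Nat.zero_le _
    | succ k ih =>
      have h9 : l k < l (k + 1) := (hσ2 k (k + 1) (Nat.lt_succ_self k)).2.1
      omega
  have q7 : ∀ i k, i < k → tvs S e (l k) (Nb (S (l i)) (h (l i))) ≤ η / 2 ^ (i + 1) := by
    intro i k hik
    have h1 := (hσ2 i k hik).2.2.2
    refine h1.le.trans ?_
    apply div_le_div_of_nonneg_left hη.le (by positivity)
    apply pow_le_pow_right₀ (by norm_num)
    have := hn i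
    omega
  -- the glued function
  set S' : ℕ → Set M := fun k => {x | x ∈ S (l k) ∧ x ∉ Q k ∧ ∀ i, i < k → x ∉ Nb (S (l i)) (h (l i))} with hS'
  have huniq : ∀ x i k, x ∈ S' i → x ∈ S' k → i = k := by
    intro x i k hi hk
    rcases lt_trichotomy i k with hlt | heq | hgt
    · exact absurd (q6 i k hlt hi.1) hk.2.1
    · exact heq
    · exact absurd (q6 k i hgt hk.1) hi.2.1
  set f0 : M → 𝕜 := fun x => if hx : ∃ k, x ∈ S' k then h (l hx.choose) x else 0 with hf0
  have hf01 : ∀ k, ∀ x ∈ S' k, f0 x = h (l k) x := by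
    intro k x hx
    have hex : ∃ k, x ∈ S' k := ⟨k, hx⟩
    simp only [hf0, dif_pos hex]
    rw [huniq x _ _ hex.choose_spec hx]
  have hf02 : ∀ x ∈ P0, f0 x = 0 := by
    intro x hx
    have hex : ¬ ∃ k, x ∈ S' k := by
      rintro ⟨k, hk⟩
      exact hk.2.1 (q1 k hx)
    simp only [hf0, dif_neg hex]
  set V : Set M := {x | x ∈ P0 ∨ ∃ k, x ∈ S' k} with hV
  have hcross : ∀ i k, i < k → ∀ x ∈ S' i, ∀ y ∈ S' k, ‖f0 x - f0 y‖ ≤ 9 * dist x y := by
    intro i k hik x hx y hy
    rw [hf01 i x hx, hf01 k y hy]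
    have hxy : x ≠ y := by
      rintro rfl
      exact absurd (huniq x i k hx hy) hik.ne
    have h1 : ‖h (l i) x‖ ≤ 6 * dist x y := by
      by_contra hcon
      push Not at hcon
      exact hy.2.2 i hik ⟨x, hx.1, hxy, hcon⟩
    have h2 := q4 k x (q6 i k hik hx.1)
    have h3 := hL (l k) y x
    have h4 : ‖h (l k) y‖ ≤ ‖h (l k) y - h (l k) x‖ + ‖h (l k) x‖ := by
      simpa using norm_add_le (h (l k) y - h (l k) x) (h (l k) x)
    have h5 := hsep x y hxy
    have h6 := norm_sub_le (h (l i) x) (h (l k) y)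
    rw [dist_comm y x] at h3
    linarith
  have hP0cross : ∀ k, ∀ x ∈ P0, ∀ y ∈ S' k, ‖f0 x - f0 y‖ ≤ 9 * dist x y := by
    intro k x hx y hy
    rw [hf02 x hx, hf01 k y hy, zero_sub, norm_neg]
    have hxy : x ≠ y := by
      rintro rfl
      exact hy.2.1 (q1 k hx)
    have h2 := q4 k x (q1 k hx)
    have h3 := hL (l k) y x
    have h4 : ‖h (l k) y‖ ≤ ‖h (l k) y - h (l k) x‖ + ‖h (l k) x‖ := by
      simpa using norm_add_le (h (l k) y - h (l k) x) (h (l k) x)
    have h5 := hsep x y hxy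
    rw [dist_comm y x] at h3
    linarith
  have hsame : ∀ k, ∀ x ∈ S' k, ∀ y ∈ S' k, ‖f0 x - f0 y‖ ≤ 9 * dist x y := by
    intro k x hx y hy
    rw [hf01 k x hx, hf01 k y hy]
    have := hL (l k) x y
    linarith [dist_nonneg (x := x) (y := y)]
  have hLip : ∀ x ∈ V, ∀ y ∈ V, ‖f0 x - f0 y‖ ≤ 9 * dist x y := by
    intro x hx y hy
    rcases hx with hx | ⟨i, hx⟩ <;> rcases hy with hy | ⟨k, hy⟩
    · rw [hf02 x hx, hf02 y hy, sub_self, norm_zero]; positivity
    · exact hP0cross k x hx y hy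
    · rw [norm_sub_rev, dist_comm]; exact hP0cross i y hy x hx
    · rcases lt_trichotomy i k with hlt | heq | hgt
      · exact hcross i k hlt x hx y hy
      · subst heq; exact hsame i x hx y hy
      · rw [norm_sub_rev, dist_comm]; exact hcross k i hgt y hy x hx
  obtain ⟨F, hF1, hF2⟩ := extend_rclike f0 V hLip
  have hFo : F o = 0 := by
    rw [hF2 o (Or.inl (Finset.mem_insert_self _ _)), hf02 o (Finset.mem_insert_self _ _)]
  have hFb : ∀ x, ‖F x‖ ≤ 18 * dist x o := by
    intro x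
    have := hF1 x o
    rwa [hFo, sub_zero] at this
  -- apply the weak condition
  have hFW : ∀ᶠ j in atTop, ‖∑ x ∈ S j, e j x * F x‖ ≤ 18 * (δ + η) :=
    weak_scale o S e δ hW 18 (by norm_num) F hFo hF1 η hη
  obtain ⟨k0, hk0⟩ := eventually_atTop.mp hFW
  have hfin := hk0 (l k0) (hlk k0)
  -- compare
  set k := k0 with hk
  have hcmp : ‖∑ x ∈ S (l k), e (l k) x * h (l k) x - ∑ x ∈ S (l k), e (l k) x * F x‖ ≤
      T * η + 20 * R * (2 * η) := by
    rw [← Finset.sum_sub_distrib]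
    refine (norm_sum_le _ _).trans ?_
    have hpt : ∀ x ∈ S (l k), ‖e (l k) x * h (l k) x - e (l k) x * F x‖ ≤
        η * ‖e (l k) x‖ + 20 * R * (((Q k \ P0 : Finset M) : Set M).indicator (fun x => ‖e (l k) x‖) x +
          ∑ i ∈ Finset.range k, (Nb (S (l i)) (h (l i))).indicator (fun x => ‖e (l k) x‖) x) := by
      intro x hx
      rw [← mul_sub, norm_mul]
      have n0 : 0 ≤ ‖e (l k) x‖ := norm_nonneg _
      have n1 : 0 ≤ ((Q k \ P0 : Finset M) : Set M).indicator (fun x => ‖e (l k) x‖) x :=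
        Set.indicator_nonneg (fun _ _ => norm_nonneg _) x
      have n2 : ∀ i ∈ Finset.range k, 0 ≤ (Nb (S (l i)) (h (l i))).indicator (fun x => ‖e (l k) x‖) x :=
        fun i _ => Set.indicator_nonneg (fun _ _ => norm_nonneg _) x
      have n3 := Finset.sum_nonneg n2
      have hb : ‖h (l k) x - F x‖ ≤ 20 * R := by
        have b1 := norm_sub_le (h (l k) x) (F x)
        have b2 := hhb (l k) x
        have b3 := hFb x
        have b4 := hS (l k) x hx
        linarith
      by_cases c1 : x ∈ Q k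
      · by_cases c2 : x ∈ P0
        · have b1 : F x = 0 := by rw [hF2 x (Or.inl c2), hf02 x c2]
          rw [b1, sub_zero]
          have b2 := q4 k x c1
          have b3 : ‖e (l k) x‖ * ‖h (l k) x‖ ≤ ‖e (l k) x‖ * η := mul_le_mul_of_nonneg_left b2 n0
          have b4 : 0 ≤ 20 * R * (((Q k \ P0 : Finset M) : Set M).indicator (fun x => ‖e (l k) x‖) x +
            ∑ i ∈ Finset.range k, (Nb (S (l i)) (h (l i))).indicator (fun x => ‖e (l k) x‖) x) := by positivity
          linarith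
        · have b1 : x ∈ ((Q k \ P0 : Finset M) : Set M) := by
            rw [Finset.mem_coe, Finset.mem_sdiff]; exact ⟨c1, c2⟩
          rw [Set.indicator_of_mem b1]
          have b3 : ‖e (l k) x‖ * ‖h (l k) x - F x‖ ≤ ‖e (l k) x‖ * (20 * R) := mul_le_mul_of_nonneg_left hb n0
          have b4 : 0 ≤ 20 * R * ∑ i ∈ Finset.range k, (Nb (S (l i)) (h (l i))).indicator (fun x => ‖e (l k) x‖) x := by
            positivity
          have b5 : 0 ≤ η * ‖e (l k) x‖ := by positivity
          nlinarith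
      · by_cases c2 : ∃ i, i < k ∧ x ∈ Nb (S (l i)) (h (l i))
        · obtain ⟨i, hi, hxi⟩ := c2
          have b1 : ‖e (l k) x‖ ≤ ∑ i ∈ Finset.range k, (Nb (S (l i)) (h (l i))).indicator (fun x => ‖e (l k) x‖) x := by
            have := Finset.single_le_sum n2 (Finset.mem_range.mpr hi)
            rwa [Set.indicator_of_mem hxi] at this
          have b3 : ‖e (l k) x‖ * ‖h (l k) x - F x‖ ≤ ‖e (l k) x‖ * (20 * R) := mul_le_mul_of_nonneg_left hb n0
          have b5 : 0 ≤ η * ‖e (l k) x‖ := by positivity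
          have b6 : ‖e (l k) x‖ * (20 * R) ≤ 20 * R * (((Q k \ P0 : Finset M) : Set M).indicator (fun x => ‖e (l k) x‖) x +
            ∑ i ∈ Finset.range k, (Nb (S (l i)) (h (l i))).indicator (fun x => ‖e (l k) x‖) x) := by
            rw [mul_comm]
            apply mul_le_mul_of_nonneg_left _ (by positivity)
            linarith
          linarith
        · have hxS : x ∈ S' k := ⟨hx, c1, fun i hi hxi => c2 ⟨i, hi, hxi⟩⟩
          have b1 : F x = h (l k) x := by rw [hF2 x (Or.inr ⟨k, hxS⟩), hf01 k x hxS]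
          rw [b1, sub_self, norm_zero, mul_zero]
          positivity
    refine (Finset.sum_le_sum hpt).trans ?_
    rw [Finset.sum_add_distrib, ← Finset.mul_sum, ← Finset.mul_sum, Finset.sum_add_distrib]
    have m1 : η * ∑ x ∈ S (l k), ‖e (l k) x‖ ≤ T * η := by
      rw [mul_comm]; exact mul_le_mul_of_nonneg_right (hT _) hη.le
    have m2 : ∑ x ∈ S (l k), ((Q k \ P0 : Finset M) : Set M).indicator (fun x => ‖e (l k) x‖) x ≤ η := by
      refine le_trans ?_ (q3 k).le
      have e1 : ∑ x ∈ S (l k), ((Q k \ P0 : Finset M) : Set M).indicator (fun x => ‖e (l k) x‖) x =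
          ∑ x ∈ (S (l k)).filter (fun x => x ∈ Q k \ P0), ‖e (l k) x‖ := by
        rw [Finset.sum_filter]
        apply Finset.sum_congr rfl
        intro x _
        by_cases hx : x ∈ Q k \ P0
        · rw [Set.indicator_of_mem (Finset.mem_coe.mpr hx), if_pos hx]
        · rw [Set.indicator_of_notMem (fun h => hx (Finset.mem_coe.mp h)), if_neg hx]
      rw [e1]
      apply Finset.sum_le_sum_of_subset_of_nonneg
      · intro x hx
        exact (Finset.mem_filter.mp hx).2
      · intro x _ _; exact norm_nonneg _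
    have m3 : ∑ x ∈ S (l k), ∑ i ∈ Finset.range k, (Nb (S (l i)) (h (l i))).indicator (fun x => ‖e (l k) x‖) x ≤ η := by
      rw [Finset.sum_comm]
      calc ∑ i ∈ Finset.range k, ∑ x ∈ S (l k), (Nb (S (l i)) (h (l i))).indicator (fun x => ‖e (l k) x‖) x
          ≤ ∑ i ∈ Finset.range k, η / 2 ^ (i + 1) :=
            Finset.sum_le_sum fun i hi => q7 i k (Finset.mem_range.mp hi)
        _ = η * (1 - (1 / 2) ^ k) := by
            clear_value k
            clear * -
            induction k with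
            | zero => simp
            | succ k ih =>
              have e9 : η / 2 ^ (k + 1) = η * (1 / 2) ^ (k + 1) := by rw [one_div_pow]; ring
              rw [Finset.sum_range_succ, ih, e9, pow_succ]; ring
        _ ≤ η := by
            have : (0:ℝ) ≤ (1 / 2) ^ k := by positivity
            nlinarith
    have m4 : 20 * R * (∑ x ∈ S (l k), ((Q k \ P0 : Finset M) : Set M).indicator (fun x => ‖e (l k) x‖) x +
        ∑ x ∈ S (l k), ∑ i ∈ Finset.range k, (Nb (S (l i)) (h (l i))).indicator (fun x => ‖e (l k) x‖) x) ≤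
          20 * R * (2 * η) := by
      apply mul_le_mul_of_nonneg_left _ (by positivity)
      linarith
    linarith
  have hq := q5 k
  have htri := norm_sub_norm_le (∑ x ∈ S (l k), e (l k) x * h (l k) x) (∑ x ∈ S (l k), e (l k) x * F x)
  nlinarith

end

end Pool.Agent.V8H58.FS
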