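import Pool.Agent.V8H58.FS.Glue

set_option autoImplicit false

/-!
The unbounded case: cutoff functions and a gliding hump.
-/

namespace Pool.Agent.V8H58.FS

open Filter Topology

noncomputable section

variable {M : Type*} [MetricSpace M] {𝕜 : Type*} [RCLike 𝕜]

/-- the cutoff function: one on the ball of radius `r`, zero outside the ball of radius `2 r` -/
def cut (o : M) (r : ℝ) (x : M) : ℝ := max 0 (min 1 (2 - dist x o / r))

theorem cut_nonneg (o : M) (r : ℝ) (x : M) : 0 ≤ cut o r x := le_max_left _ _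

theorem cut_le_one (o : M) (r : ℝ) (x : M) : cut o r x ≤ 1 :=
  max_le zero_le_one (min_le_left _ _)

theorem cut_one {o : M} {r : ℝ} (hr : 0 < r) {x : M} (h : dist x o ≤ r) : cut o r x = 1 := by
  unfold cut
  have : dist x o / r ≤ 1 := by rw [div_le_one hr]; exact h
  rw [min_eq_left (by linarith), max_eq_right zero_le_one]

theorem cut_zero {o : M} {r : ℝ} (hr : 0 < r) {x : M} (h : 2 * r ≤ dist x o) : cut o r x = 0 := by
  unfold cut
  have : 2 ≤ dist x o / r := by rw [le_div_iff₀ hr]; exact h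
  rw [max_eq_left]
  exact (min_le_right _ _).trans (by linarith)

theorem cut_lip {o : M} {r : ℝ} (hr : 0 < r) (x y : M) : |cut o r x - cut o r y| ≤ dist x y / r := by
  unfold cut
  have h1 := abs_max_sub_max_le_abs (min 1 (2 - dist x o / r)) (min 1 (2 - dist y o / r)) 0
  rw [max_comm 0, max_comm 0]
  refine h1.trans ?_
  have h2 := abs_min_sub_min_le_max (1 : ℝ) (2 - dist x o / r) 1 (2 - dist y o / r)
  refine h2.trans ?_
  rw [sub_self, abs_zero, max_eq_right (abs_nonneg _)]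
  have e : 2 - dist x o / r - (2 - dist y o / r) = (dist y o - dist x o) / r := by ring
  rw [e, abs_div, abs_of_pos hr]
  apply div_le_div_of_nonneg_right _ hr.le
  have := abs_dist_sub_le y x o
  rwa [dist_comm y x] at this

/-- product with a cutoff -/
theorem mul_cut (o : M) (C r : ℝ) (hC : 0 ≤ C) (hr : 0 < r) (f : M → 𝕜) (hf0 : f o = 0)
    (hf : ∀ x y, ‖f x - f y‖ ≤ C * dist x y) (χ : M → ℝ) (h0 : ∀ x, 0 ≤ χ x) (h1 : ∀ x, χ x ≤ 1)
    (hχ : ∀ x y, |χ x - χ y| ≤ dist x y / r) (c : ℝ) (hc : ∀ x, 2 * r ≤ dist x o → χ x = c) (x y : M) :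
    ‖f x * (χ x : 𝕜) - f y * (χ y : 𝕜)‖ ≤ 3 * C * dist x y := by
  have key : ∀ x y : M, dist y o ≤ dist x o → ‖f x * (χ x : 𝕜) - f y * (χ y : 𝕜)‖ ≤ 3 * C * dist x y := by
    intro x y hxy
    have e1 : f x * (χ x : 𝕜) - f y * (χ y : 𝕜) = (f x - f y) * (χ x : 𝕜) + f y * ((χ x - χ y : ℝ) : 𝕜) := by
      push_cast; ring
    have hd := dist_nonneg (x := x) (y := y)
    have n1 : ‖(f x - f y) * (χ x : 𝕜)‖ ≤ C * dist x y := by
      rw [norm_mul, RCLike.norm_ofReal, abs_of_nonneg (h0 x)]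
      calc ‖f x - f y‖ * χ x ≤ (C * dist x y) * 1 :=
            mul_le_mul (hf x y) (h1 x) (h0 x) (by positivity)
        _ = _ := mul_one _
    have n2 : ‖f y * ((χ x - χ y : ℝ) : 𝕜)‖ ≤ 2 * C * dist x y := by
      rw [norm_mul, RCLike.norm_ofReal]
      by_cases hy : 2 * r ≤ dist y o
      · rw [hc y hy, hc x (hy.trans hxy), sub_self, abs_zero, mul_zero]; positivity
      · push Not at hy
        have h2 := hf y o
        rw [hf0, sub_zero] at h2
        have h3 : ‖f y‖ ≤ C * (2 * r) := h2.trans (mul_le_mul_of_nonneg_left hy.le hC)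
        calc ‖f y‖ * |χ x - χ y| ≤ (C * (2 * r)) * (dist x y / r) :=
              mul_le_mul h3 (hχ x y) (abs_nonneg _) (by positivity)
          _ = 2 * C * dist x y := by field_simp
    rw [e1]
    refine (norm_add_le _ _).trans ?_
    linarith
  rcases le_total (dist y o) (dist x o) with h | h
  · exact key x y h
  · rw [norm_sub_rev, dist_comm]
    exact key y x h

theorem cut_mul (o : M) (C r : ℝ) (hC : 0 ≤ C) (hr : 0 < r) (f : M → 𝕜) (hf0 : f o = 0)
    (hf : ∀ x y, ‖f x - f y‖ ≤ C * dist x y) (x y : M) :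
    ‖f x * (cut o r x : 𝕜) - f y * (cut o r y : 𝕜)‖ ≤ 3 * C * dist x y :=
  mul_cut o C r hC hr f hf0 hf (cut o r) (cut_nonneg o r) (cut_le_one o r) (cut_lip hr) 0
    (fun _ h => cut_zero hr h) x y

theorem cocut_mul (o : M) (C r : ℝ) (hC : 0 ≤ C) (hr : 0 < r) (f : M → 𝕜) (hf0 : f o = 0)
    (hf : ∀ x y, ‖f x - f y‖ ≤ C * dist x y) (x y : M) :
    ‖f x * ((1 - cut o r x : ℝ) : 𝕜) - f y * ((1 - cut o r y : ℝ) : 𝕜)‖ ≤ 3 * C * dist x y :=
  mul_cut o C r hC hr f hf0 hf (fun x => 1 - cut o r x) (fun x => sub_nonneg.mpr (cut_le_one o r x))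
    (fun x => by linarith [cut_nonneg o r x]) (fun x y => by
      have := cut_lip (o := o) hr x y
      rw [abs_sub_comm] at this
      have e : 1 - cut o r x - (1 - cut o r y) = cut o r y - cut o r x := by ring
      rw [e]; exact this) 1 (fun _ h => by rw [cut_zero hr h, sub_zero]) x y

/-- the states of the gliding hump: a function, a radius and an index -/
structure St (M : Type*) [MetricSpace M] (𝕜 : Type*) [RCLike 𝕜] (o : M) where
  G : M → 𝕜
  ρ : ℝ
  l : ℕ
  zero : G o = 0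
  lip : ∀ x y, ‖G x - G y‖ ≤ 18 * dist x y
  pos : 0 < ρ
  out : ∀ x y, ρ ≤ dist y o → ‖G x‖ ≤ 9 * dist x y

theorem St.vanish {o : M} (z : St M 𝕜 o) {y : M} (hy : z.ρ ≤ dist y o) : z.G y = 0 := by
  have := z.out y y hy
  rw [dist_self, mul_zero] at this
  exact norm_le_zero_iff.mp this

/-- one step of the gliding hump -/
theorem step (o : M) (S : ℕ → Finset M) (e : ℕ → M → 𝕜) (a δ : ℝ)
    (hW : ∀ f : M → 𝕜, f o = 0 → (∀ x y, ‖f x - f y‖ ≤ dist x y) → ∀ ε : ℝ, 0 < ε →
      ∀ᶠ j in atTop, ‖∑ x ∈ S j, e j x * f x‖ ≤ δ + ε)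
    (hB : ∀ r : ℝ, 0 < r → ∃ᶠ j in atTop, ∃ f : M → 𝕜, f o = 0 ∧ (∀ x y, ‖f x - f y‖ ≤ dist x y) ∧
      a / 2 < ‖∑ x ∈ S j, e j x * (f x * ((1 - cut o r x : ℝ) : 𝕜))‖) (ε : ℝ) (hε : 0 < ε) (z : St M 𝕜 o) :
    ∃ w : St M 𝕜 o, z.l < w.l ∧ z.ρ + 1 ≤ w.ρ ∧ (∀ x, dist x o ≤ z.ρ → w.G x = z.G x) ∧
      (∀ x ∈ S w.l, dist x o ≤ w.ρ) ∧ a / 2 - 18 * (δ + ε) ≤ ‖∑ x ∈ S w.l, e w.l x * w.G x‖ := by
  classical
  have h1 := weak_scale o S e δ hW 18 (by norm_num) z.G z.zero z.lip ε hε
  obtain ⟨j, ⟨f, hf0, hf, hfa⟩, hj1, hj2⟩ := ((hB z.ρ z.pos).and_eventually (h1.and (eventually_gt_atTop z.l))).exists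
  obtain ⟨D, hD⟩ : ∃ D : ℝ, ∀ x ∈ S j, dist x o ≤ D := by
    refine ⟨∑ x ∈ S j, dist x o, fun x hx => ?_⟩
    exact Finset.single_le_sum (f := fun x => dist x o) (fun x _ => dist_nonneg) hx
  set ρ1 : ℝ := max (z.ρ + 1) D with hρ1
  have hρ1a : z.ρ + 1 ≤ ρ1 := le_max_left _ _
  have hρ1b : D ≤ ρ1 := le_max_right _ _
  have hzp := z.pos
  have hρ10 : 0 < ρ1 := by linarith
  set F1 : M → 𝕜 := fun x => f x * ((1 - cut o z.ρ x : ℝ) : 𝕜) with hF1
  have hF1o : F1 o = 0 := by simp [hF1, hf0]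
  have hF1L : ∀ x y, ‖F1 x - F1 y‖ ≤ 3 * dist x y := by
    intro x y
    have := cocut_mul o 1 z.ρ zero_le_one z.pos f hf0 (by simpa using hf) x y
    rw [mul_one] at this
    exact this
  set F : M → 𝕜 := fun x => F1 x * (cut o ρ1 x : 𝕜) with hF
  have hFo : F o = 0 := by simp [hF, hF1o]
  have hFL : ∀ x y, ‖F x - F y‖ ≤ 9 * dist x y := by
    intro x y
    have := cut_mul o 3 ρ1 (by norm_num) hρ10 F1 hF1o hF1L x y
    norm_num at this
    exact this
  have hFin : ∀ x, dist x o ≤ z.ρ → F x = 0 := by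
    intro x hx
    simp [hF, hF1, cut_one z.pos hx]
  have hFout : ∀ x, 2 * ρ1 ≤ dist x o → F x = 0 := by
    intro x hx
    simp [hF, cut_zero hρ10 hx]
  refine ⟨⟨fun x => z.G x + F x, 2 * ρ1, j, by simp [z.zero, hFo], ?_, by positivity, ?_⟩, hj2, ?_, ?_, ?_, ?_⟩
  · have key : ∀ x y : M, dist x o ≤ z.ρ → ‖z.G x + F x - (z.G y + F y)‖ ≤ 18 * dist x y := by
      intro x y hx
      rw [hFin x hx, add_zero]
      by_cases hy : dist y o ≤ z.ρ
      · rw [hFin y hy, add_zero]; exact z.lip x y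
      · push Not at hy
        rw [z.vanish hy.le, zero_add]
        have b1 := z.out x y hy.le
        have b2 := hFL x y
        rw [hFin x hx, zero_sub, norm_neg] at b2
        have b3 := norm_sub_le (z.G x) (F y)
        linarith
    intro x y
    by_cases hx : dist x o ≤ z.ρ
    · exact key x y hx
    · by_cases hy : dist y o ≤ z.ρ
      · rw [norm_sub_rev, dist_comm]; exact key y x hy
      · push Not at hx hy
        rw [z.vanish hx.le, z.vanish hy.le, zero_add, zero_add]
        have := hFL x y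
        linarith [dist_nonneg (x := x) (y := y)]
  · intro x y hy
    by_cases hx : dist x o ≤ z.ρ
    · rw [hFin x hx, add_zero]
      exact z.out x y (by linarith)
    · push Not at hx
      rw [z.vanish hx.le, zero_add]
      have := hFL x y
      rwa [hFout y hy, sub_zero] at this
  · simp only; linarith
  · intro x hx
    simp only
    rw [hFin x hx, add_zero]
  · intro x hx
    simp only
    have := hD x hx
    linarith
  · simp only
    have e1 : ∑ x ∈ S j, e j x * (z.G x + F x) = ∑ x ∈ S j, e j x * F1 x + ∑ x ∈ S j, e j x * z.G x := by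
      rw [← Finset.sum_add_distrib]
      apply Finset.sum_congr rfl
      intro x hx
      have : cut o ρ1 x = 1 := cut_one hρ10 ((hD x hx).trans hρ1b)
      simp only [hF, this]
      push_cast
      ring
    rw [e1]
    have b1 := norm_sub_le (∑ x ∈ S j, e j x * F1 x + ∑ x ∈ S j, e j x * z.G x) (∑ x ∈ S j, e j x * z.G x)
    rw [add_sub_cancel_right] at b1
    have b2 : a / 2 < ‖∑ x ∈ S j, e j x * F1 x‖ := hfa
    linarith

/-- the main estimate for sequences of finitely supported measures -/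
theorem main_est (o : M) {s T : ℝ} (hs : 0 < s) (hsep : ∀ x y : M, x ≠ y → s ≤ dist x y)
    (S : ℕ → Finset M) (e : ℕ → M → 𝕜) (he : ∀ j, ∀ x, x ∉ S j → e j x = 0)
    (hT : ∀ j, ∑ x ∈ S j, ‖e j x‖ ≤ T) (a δ : ℝ) (g : ℕ → M → 𝕜) (hg0 : ∀ j, g j o = 0)
    (hg : ∀ j x y, ‖g j x - g j y‖ ≤ dist x y) (ha : ∀ j, a ≤ ‖∑ x ∈ S j, e j x * g j x‖)
    (hW : ∀ f : M → 𝕜, f o = 0 → (∀ x y, ‖f x - f y‖ ≤ dist x y) → ∀ ε : ℝ, 0 < ε →
      ∀ᶠ j in atTop, ‖∑ x ∈ S j, e j x * f x‖ ≤ δ + ε) :
    a ≤ 114 * δ := by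
  classical
  have hδ : 0 ≤ δ := by
    apply le_of_forall_pos_le_add
    intro ε hε
    obtain ⟨j, hj⟩ := (hW (fun _ => 0) rfl (fun x y => by simp) ε hε).exists
    simpa using hj
  by_cases hA : ∃ r : ℝ, 0 < r ∧ ∀ᶠ j in atTop, ∀ f : M → 𝕜, f o = 0 → (∀ x y, ‖f x - f y‖ ≤ dist x y) →
      ‖∑ x ∈ S j, e j x * (f x * ((1 - cut o r x : ℝ) : 𝕜))‖ ≤ a / 2
  · -- the essentially bounded case
    obtain ⟨r, hr, hev⟩ := hA
    have hsum : ∀ j, ∀ f : M → 𝕜, ∑ x ∈ (S j).filter (fun x => dist x o ≤ 2 * r), e j x * (cut o r x : 𝕜) * f x =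
        ∑ x ∈ S j, e j x * (f x * (cut o r x : 𝕜)) := by
      intro j f
      rw [Finset.sum_filter]
      apply Finset.sum_congr rfl
      intro x _
      split_ifs with hx
      · ring
      · push Not at hx
        rw [cut_zero hr hx.le]; simp
    have hcore := core o hs (by positivity : (0:ℝ) ≤ 2 * r) hsep
      (fun j => (S j).filter (fun x => dist x o ≤ 2 * r)) (fun j x hx => (Finset.mem_filter.mp hx).2)
      (fun j x => e j x * (cut o r x : 𝕜)) (fun j x hx => by
        by_cases h1 : x ∈ S j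
        · have h2 : ¬ dist x o ≤ 2 * r := fun h => hx (Finset.mem_filter.mpr ⟨h1, h⟩)
          push Not at h2
          simp only [cut_zero hr h2.le]
          simp
        · simp only [he j x h1, zero_mul]) (T := T) (fun j => by
        refine le_trans ?_ (hT j)
        refine (Finset.sum_le_sum_of_subset_of_nonneg (Finset.filter_subset _ _) (fun x _ _ => norm_nonneg _)).trans ?_
        apply Finset.sum_le_sum
        intro x _
        rw [norm_mul, RCLike.norm_ofReal, abs_of_nonneg (cut_nonneg o r x)]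
        exact mul_le_of_le_one_right (norm_nonneg _) (cut_le_one o r x)) (a / 2) (3 * δ) g hg0 hg (by
        filter_upwards [hev] with j hj
        rw [hsum]
        have b1 := hj (g j) (hg0 j) (hg j)
        have b2 := ha j
        have e1 : ∑ x ∈ S j, e j x * (g j x * (cut o r x : 𝕜)) = ∑ x ∈ S j, e j x * g j x -
            ∑ x ∈ S j, e j x * (g j x * ((1 - cut o r x : ℝ) : 𝕜)) := by
          rw [← Finset.sum_sub_distrib]
          apply Finset.sum_congr rfl
          intro x _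
          push_cast; ring
        rw [e1]
        have b3 := norm_sub_norm_le (∑ x ∈ S j, e j x * g j x)
          (∑ x ∈ S j, e j x * (g j x * ((1 - cut o r x : ℝ) : 𝕜)))
        linarith) (by
        intro f hf0 hf ε hε
        have h1 := cut_mul o 1 r zero_le_one hr f hf0 (by simpa using hf)
        have h2 := weak_scale o S e δ hW 3 (by norm_num) (fun x => f x * (cut o r x : 𝕜)) (by simp [hf0])
          (by simpa using h1) (ε / 3) (by positivity)
        filter_upwards [h2] with j hj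
        rw [hsum]
        linarith)
    linarith
  · -- the gliding hump
    have hB : ∀ r : ℝ, 0 < r → ∃ᶠ j in atTop, ∃ f : M → 𝕜, f o = 0 ∧ (∀ x y, ‖f x - f y‖ ≤ dist x y) ∧
        a / 2 < ‖∑ x ∈ S j, e j x * (f x * ((1 - cut o r x : ℝ) : 𝕜))‖ := by
      intro r hr
      rw [Filter.Frequently]
      intro hcon
      apply hA
      refine ⟨r, hr, ?_⟩
      filter_upwards [hcon] with j hj f hf0 hf
      by_contra hlt
      push Not at hlt
      exact hj ⟨f, hf0, hf, hlt⟩
    suffices hmain : ∀ ε : ℝ, 0 < ε → a ≤ 72 * δ + ε by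
      have := le_of_forall_pos_le_add hmain
      linarith
    intro ε hε
    set ε' := ε / 72 with hε'
    have hε'0 : 0 < ε' := by positivity
    choose nxt hn using step o S e a δ hW hB ε' hε'0
    set z0 : St M 𝕜 o := ⟨fun _ => 0, 1, 0, rfl, fun x y => by simp, one_pos, fun x y _ => by simp⟩ with hz0
    set σ : ℕ → St M 𝕜 o := fun n => nxt^[n] z0 with hσ
    have hσs : ∀ n, σ (n + 1) = nxt (σ n) := fun n => Function.iterate_succ_apply' _ _ _
    have hl : ∀ n, n ≤ (σ n).l := by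
      intro n
      induction n with
      | zero => exact Nat.zero_le _
      | succ n ih =>
        have := (hn (σ n)).1
        rw [← hσs] at this
        omega
    have hρ : ∀ n : ℕ, (n : ℝ) ≤ (σ n).ρ := by
      intro n
      induction n with
      | zero => simpa using (σ 0).pos.le
      | succ n ih =>
        have := (hn (σ n)).2.1
        rw [← hσs] at this
        push_cast
        linarith
    have hρm : ∀ n k : ℕ, (σ n).ρ ≤ (σ (n + k)).ρ := by
      intro n k
      induction k with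
      | zero => exact le_rfl
      | succ k ih =>
        have := (hn (σ (n + k))).2.1
        rw [← hσs] at this
        rw [← add_assoc]
        linarith
    have hst : ∀ (n k : ℕ) (x : M), dist x o ≤ (σ n).ρ → (σ (n + k)).G x = (σ n).G x := by
      intro n k x hx
      induction k with
      | zero => rfl
      | succ k ih =>
        have := (hn (σ (n + k))).2.2.1 x (hx.trans (hρm n k))
        rw [← hσs] at this
        rw [← add_assoc, this, ih]
    have hst2 : ∀ (n m : ℕ) (x : M), dist x o ≤ (σ n).ρ → dist x o ≤ (σ m).ρ → (σ n).G x = (σ m).G x := by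
      intro n m x h1 h2
      rcases le_total n m with h | h
      · obtain ⟨k, rfl⟩ := Nat.exists_eq_add_of_le h
        exact (hst n k x h1).symm
      · obtain ⟨k, rfl⟩ := Nat.exists_eq_add_of_le h
        exact hst m k x h2
    set Gi : M → 𝕜 := fun x => (σ ⌈dist x o⌉₊).G x with hGi
    have hGi1 : ∀ (n : ℕ) (x : M), dist x o ≤ (σ n).ρ → Gi x = (σ n).G x := by
      intro n x hx
      exact hst2 _ _ x ((Nat.le_ceil _).trans (hρ _)) hx
    have hGio : Gi o = 0 := by
      rw [hGi1 0 o (by rw [dist_self]; exact (σ 0).pos.le)]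
      exact (σ 0).zero
    have hGiL : ∀ x y, ‖Gi x - Gi y‖ ≤ 18 * dist x y := by
      intro x y
      obtain ⟨n, hnn⟩ := exists_nat_ge (max (dist x o) (dist y o))
      rw [hGi1 n x (((le_max_left _ _).trans hnn).trans (hρ n)), hGi1 n y (((le_max_right _ _).trans hnn).trans (hρ n))]
      exact (σ n).lip x y
    have hGW := weak_scale o S e δ hW 18 (by norm_num) Gi hGio hGiL ε' hε'0
    obtain ⟨j0, hj0⟩ := eventually_atTop.mp hGW
    have h1 := hj0 (σ (j0 + 1)).l (le_trans (Nat.le_succ _) (hl _))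
    have h2 := (hn (σ j0)).2.2.2
    rw [← hσs] at h2
    obtain ⟨h3, h4⟩ := h2
    have h5 : ∑ x ∈ S (σ (j0 + 1)).l, e (σ (j0 + 1)).l x * (σ (j0 + 1)).G x =
        ∑ x ∈ S (σ (j0 + 1)).l, e (σ (j0 + 1)).l x * Gi x := by
      apply Finset.sum_congr rfl
      intro x hx
      rw [hGi1 (j0 + 1) x (h3 x hx)]
    rw [h5] at h4
    have h6 : 72 * ε' = ε := by rw [hε']; ring
    linarith

end

end Pool.Agent.V8H58.FS
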