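import Pool.Agent.V8H58.FS.Defs
import Pool.Agent.V8H58.FS.Hump

set_option autoImplicit false

/-!
Reduction of the quantitative Schur property of Lipschitz-free spaces to finitely supported measures.
-/

namespace Pool.Agent.V8H58.FS

open Filter Topology
open scoped ENNReal NNReal

noncomputable section

section general

variable (𝕜 : Type*) [RCLike 𝕜] {X : Type*} [NormedAddCommGroup X] [NormedSpace 𝕜 X]

/-- the canonical embedding of `X` into its bidual: `can v` is the evaluation at `v` -/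
def can (v : X) : Du 𝕜 (Du 𝕜 X) :=
  Du.mk { toFun := fun f => f.ap v, map_add' := fun f g => Du.ap_add f g v, map_smul' := fun c f => Du.ap_smul c f v }
    ‖v‖ (fun f => by rw [mul_comm]; exact Du.ap_le f v)

theorem can_ap (v : X) (f : Du 𝕜 X) : (can 𝕜 v).ap f = f.ap v := rfl

theorem can_norm (v w : X) : ‖can 𝕜 v - can 𝕜 w‖ ≤ ‖v - w‖ := by
  apply Du.norm_le _ _ (norm_nonneg _)
  intro f
  rw [Du.ap_sub, can_ap, can_ap, ← Du.ap_vsub, mul_comm]
  exact f.ap_le _

/-- the distance of a cluster point from the elements of the sequence -/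
theorem clust_dist (y : ℕ → X) (z : Du 𝕜 (Du 𝕜 X)) (hz : z ∈ clust 𝕜 y) (m : ℕ) (B : ℝ)
    (hB : ∀ k, m ≤ k → ‖y k - y m‖ ≤ B) : ‖z - can 𝕜 (y m)‖ ≤ B := by
  have hB0 : 0 ≤ B := le_trans (norm_nonneg _) (hB m le_rfl)
  apply Du.norm_le _ _ hB0
  intro f
  rw [Du.ap_sub, can_ap]
  by_contra hcon
  push Not at hcon
  have hopen : IsOpen {w : Du 𝕜 X → 𝕜 | B * ‖f‖ < ‖w f - f.ap (y m)‖} :=
    isOpen_lt continuous_const ((continuous_apply f).sub continuous_const).norm
  have h1 := mapClusterPt_iff_frequently.mp hz _ (hopen.mem_nhds hcon)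
  obtain ⟨k, hk1, hk2⟩ := (h1.and_eventually (eventually_ge_atTop m)).exists
  have h2 : B * ‖f‖ < ‖f.ap (y k) - f.ap (y m)‖ := hk1
  rw [← Du.ap_vsub] at h2
  have h3 := f.ap_le (y k - y m)
  have h4 := mul_le_mul_of_nonneg_left (hB k hk2) (norm_nonneg f)
  linarith

/-- bounded sequences have cluster points -/
theorem clust_nonempty (y : ℕ → X) (B : ℝ) (hB : ∀ k, ‖y k‖ ≤ B) : ∃ z, z ∈ clust 𝕜 y := by
  set U : Ultrafilter ℕ := Ultrafilter.of atTop with hU
  have hUle : (U : Filter ℕ) ≤ atTop := Ultrafilter.of_le atTop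
  have hb : ∀ (f : Du 𝕜 X) (k : ℕ), ‖f.ap (y k)‖ ≤ ‖f‖ * B := fun f k =>
    (f.ap_le _).trans (mul_le_mul_of_nonneg_left (hB k) (norm_nonneg f))
  choose w hw1 hw2 using fun f : Du 𝕜 X => ulim U (fun k => f.ap (y k)) (‖f‖ * B) (hb f)
  set z : Du 𝕜 (Du 𝕜 X) := Du.mk
    { toFun := w
      map_add' := fun f g => tendsto_nhds_unique (hw2 (f + g)) ((hw2 f).add (hw2 g))
      map_smul' := fun c f => tendsto_nhds_unique (hw2 (c • f)) ((hw2 f).const_mul c) } B
    (fun f => by rw [mul_comm]; exact hw1 f) with hz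
  refine ⟨z, ?_⟩
  have h1 : Tendsto (fun (k : ℕ) (f : Du 𝕜 X) => f.ap (y k)) U (𝓝 (fun f => z.ap f)) :=
    tendsto_pi_nhds.mpr fun f => hw2 f
  exact h1.mapClusterPt.mono hUle

/-- `wck ≤ ca` -/
theorem wck_le_ca (x : ℕ → X) (B : ℝ) (hB : ∀ n, ‖x n‖ ≤ B) : wck 𝕜 x ≤ ca x := by
  unfold wck
  refine iSup_le fun φ => iSup_le fun hφ => ?_
  obtain ⟨z, hz⟩ := clust_nonempty 𝕜 (fun k => x (φ k)) B (fun k => hB _)
  refine (iInf_le_of_le z (iInf_le_of_le hz le_rfl)).trans ?_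
  unfold ca
  refine le_iInf fun n => ?_
  set A : ℝ≥0∞ := ⨆ k : ℕ, ⨆ _ : n ≤ k, ⨆ l : ℕ, ⨆ _ : n ≤ l, ENNReal.ofReal ‖x k - x l‖ with hA
  by_cases htop : A = ⊤
  · rw [htop]; exact le_top
  unfold distX
  refine (iInf_le _ (x (φ n))).trans ?_
  have h1 := clust_dist 𝕜 (fun k => x (φ k)) z hz n A.toReal (fun k hk => by
    have h2 : ENNReal.ofReal ‖x (φ k) - x (φ n)‖ ≤ A := by
      have h3 : n ≤ φ k := hk.trans hφ.le_apply
      have h4 : n ≤ φ n := hφ.le_apply
      exact le_iSup_of_le (φ k) (le_iSup_of_le h3 (le_iSup_of_le (φ n) (le_iSup_of_le h4 le_rfl)))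
    exact (ENNReal.ofReal_le_iff_le_toReal htop).mp h2)
  refine iSup_le fun f => iSup_le fun hf => ?_
  rw [ENNReal.ofReal_le_iff_le_toReal htop]
  have h3 := (z - can 𝕜 (x (φ n))).ap_le f
  rw [Du.ap_sub, can_ap] at h3
  exact h3.trans ((mul_le_of_le_one_right (norm_nonneg _) hf).trans h1)

end general

section free

variable {𝕜 : Type*} [RCLike 𝕜] {M : Type*} [MetricSpace M] {o : M}

variable (𝕜 o)

/-- the evaluation functional at the point `x` -/
def ev (x : M) : Du 𝕜 (Lip0 𝕜 M o) :=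
  Du.mk
    { toFun := fun f => f.fn x
      map_add' := fun f g => Lip0.fn_add f g x
      map_smul' := fun c f => Lip0.fn_smul c f x } (dist x o) (fun f => by
    have := f.norm_sub_le x o
    rw [Lip0.fn_base, sub_zero, mul_comm] at this
    exact this)

theorem ev_apply (x : M) (f : Lip0 𝕜 M o) : (ev 𝕜 o x).ap f = f.fn x := rfl

/-- the evaluation functionals are the range of `ev` -/
theorem evals_eq : evals 𝕜 M o = Set.range (ev 𝕜 (M := M) o) := by
  ext φ
  constructor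
  · rintro ⟨x, hx⟩
    exact ⟨x, Du.ext fun f => by rw [ev_apply, hx]⟩
  · rintro ⟨x, rfl⟩
    exact ⟨x, fun f => ev_apply 𝕜 o x f⟩

variable {𝕜 o}

/-- the element of the free space as a functional -/
def LipFree.val (m : LipFree 𝕜 M o) : Du 𝕜 (Lip0 𝕜 M o) := (m : ↥(Free 𝕜 M o)).1

theorem LipFree.norm_val (m : LipFree 𝕜 M o) : ‖m.val‖ = ‖m‖ := rfl

theorem LipFree.val_sub (m n : LipFree 𝕜 M o) : (m - n).val = m.val - n.val := rfl

theorem LipFree.val_add (m n : LipFree 𝕜 M o) : (m + n).val = m.val + n.val := rfl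

theorem LipFree.val_smul (c : 𝕜) (m : LipFree 𝕜 M o) : (c • m).val = c • m.val := rfl

/-- the functional on the free space given by a Lipschitz function -/
def evf (f : Lip0 𝕜 M o) : Du 𝕜 (LipFree 𝕜 M o) :=
  Du.mk
    { toFun := fun m => m.val.ap f
      map_add' := fun m n => by rw [LipFree.val_add, Du.ap_add]
      map_smul' := fun c m => by rw [LipFree.val_smul, Du.ap_smul]; rfl } ‖f‖ (fun m => by
    have h1 := m.val.ap_le f
    rw [LipFree.norm_val, mul_comm] at h1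
    exact h1)

theorem evf_apply (f : Lip0 𝕜 M o) (m : LipFree 𝕜 M o) : (evf f).ap m = m.val.ap f := rfl

theorem evf_norm (f : Lip0 𝕜 M o) : ‖evf f‖ ≤ ‖f‖ := by
  apply Du.norm_le _ _ (norm_nonneg _)
  intro m
  rw [evf_apply, mul_comm]
  exact m.val.ap_le f

/-- finitely supported elements -/
def fs (S : Finset M) (e : M → 𝕜) (o : M) : Du 𝕜 (Lip0 𝕜 M o) := ∑ x ∈ S, e x • ev 𝕜 o x

theorem fs_apply (S : Finset M) (e : M → 𝕜) (f : Lip0 𝕜 M o) : (fs S e o).ap f = ∑ x ∈ S, e x * f.fn x := by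
  classical
  unfold fs
  induction S using Finset.induction_on with
  | empty => rfl
  | insert a S ha ih =>
    rw [Finset.sum_insert ha, Finset.sum_insert ha, Du.ap_add, Du.ap_smul, ih, ev_apply]

/-- approximation by finitely supported elements -/
theorem approx (m : LipFree 𝕜 M o) (ε : ℝ) (hε : 0 < ε) : ∃ (S : Finset M) (e : M → 𝕜), o ∉ S ∧
    (∀ x, x ∉ S → e x = 0) ∧ ‖m.val - fs S e o‖ < ε := by
  classical
  have h1 : m.val ∈ Free 𝕜 M o := (m : ↥(Free 𝕜 M o)).2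
  have h2 : m.val ∈ closure
      ((Submodule.span 𝕜 (Set.range (ev 𝕜 (M := M) o)) : Submodule 𝕜 _) : Set (Du 𝕜 (Lip0 𝕜 M o))) := by
    rw [← Submodule.topologicalClosure_coe, ← evals_eq]
    exact h1
  obtain ⟨u, hu, hd⟩ := Metric.mem_closure_iff.mp h2 ε hε
  rw [SetLike.mem_coe, Finsupp.mem_span_range_iff_exists_finsupp] at hu
  obtain ⟨c, hc⟩ := hu
  refine ⟨c.support.erase o, fun x => if x = o then 0 else c x, Finset.notMem_erase _ _, fun x hx => ?_, ?_⟩
  · simp only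
    split_ifs with hxo
    · rfl
    · by_contra hne
      exact hx (Finset.mem_erase.mpr ⟨hxo, Finsupp.mem_support_iff.mpr hne⟩)
  · have e1 : fs (c.support.erase o) (fun x => if x = o then 0 else c x) o = u := by
      rw [← hc]
      unfold fs Finsupp.sum
      by_cases ho : o ∈ c.support
      · rw [← Finset.sum_erase_add _ _ ho]
        have e2 : ev 𝕜 o o = 0 := Du.ext fun f => by
          rw [ev_apply, Lip0.fn_base]; rfl
        simp only [e2, smul_zero, add_zero]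
        apply Finset.sum_congr rfl
        intro x hx
        rw [if_neg (Finset.ne_of_mem_erase hx)]
      · rw [Finset.erase_eq_of_notMem ho]
        apply Finset.sum_congr rfl
        intro x hx
        have hxo : x ≠ o := by
          rintro rfl
          exact ho hx
        simp only [if_neg hxo]
    rw [e1, ← dist_eq_norm]
    exact hd

/-- the total variation is controlled by the norm -/
theorem tv_le {s : ℝ} (hs : 0 < s) (hsep : ∀ x y : M, x ≠ y → s ≤ dist x y) (S : Finset M) (e : M → 𝕜)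
    (ho : o ∉ S) : ∑ x ∈ S, ‖e x‖ ≤ 2 / s * ‖fs S e o‖ := by
  classical
  set g : M → 𝕜 := fun x => if x ∈ S then ((s / 2 : ℝ) : 𝕜) * ((starRingEnd 𝕜) (e x) * ((‖e x‖ : ℝ) : 𝕜)⁻¹) else 0
    with hg
  have hgn : ∀ x, ‖g x‖ ≤ s / 2 := by
    intro x
    simp only [hg]
    split_ifs
    · rw [norm_mul, norm_mul, RCLike.norm_conj, norm_inv, RCLike.norm_ofReal, RCLike.norm_ofReal, abs_norm,
        abs_of_pos (by positivity)]
      by_cases h : ‖e x‖ = 0
      · rw [h]; simp; positivity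
      · rw [mul_inv_cancel₀ h, mul_one]
    · simp; positivity
  have hgo : g o = 0 := by simp only [hg, if_neg ho]
  have hgL : ∀ x y, ‖g x - g y‖ ≤ 1 * dist x y := by
    intro x y
    by_cases hxy : x = y
    · subst hxy; simp
    · have := norm_sub_le (g x) (g y)
      have := hsep x y hxy
      linarith [hgn x, hgn y]
  set f : Lip0 𝕜 M o := Lip0.mk g hgo 1 zero_le_one hgL with hf
  have hf1 : ‖f‖ ≤ 1 := Lip0.norm_le' f zero_le_one hgL
  have h1 := (fs S e o).ap_le f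
  rw [fs_apply] at h1
  have h2 : ∑ x ∈ S, e x * f.fn x = ((s / 2 * ∑ x ∈ S, ‖e x‖ : ℝ) : 𝕜) := by
    push_cast
    rw [Finset.mul_sum]
    apply Finset.sum_congr rfl
    intro x hx
    have e1 : f.fn x = g x := rfl
    rw [e1]
    simp only [hg, if_pos hx]
    by_cases h : e x = 0
    · rw [h]; simp
    · have h3 : ((‖e x‖ : ℝ) : 𝕜) ≠ 0 := by
        rw [RCLike.ofReal_ne_zero]; exact norm_ne_zero_iff.mpr h
      have h4 : e x * (starRingEnd 𝕜) (e x) = ((‖e x‖ : ℝ) : 𝕜) * ((‖e x‖ : ℝ) : 𝕜) := by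
        rw [RCLike.mul_conj]; ring
      calc e x * (((s / 2 : ℝ) : 𝕜) * ((starRingEnd 𝕜) (e x) * ((‖e x‖ : ℝ) : 𝕜)⁻¹))
          = ((s / 2 : ℝ) : 𝕜) * (e x * (starRingEnd 𝕜) (e x)) * ((‖e x‖ : ℝ) : 𝕜)⁻¹ := by ring
        _ = ((s / 2 : ℝ) : 𝕜) * ((‖e x‖ : ℝ) : 𝕜) := by rw [h4]; field_simp
        _ = _ := by push_cast; ring
  rw [h2, RCLike.norm_ofReal, abs_of_nonneg (mul_nonneg (by positivity) (Finset.sum_nonneg fun x _ => norm_nonneg _))] at h1
  have h5 : s / 2 * ∑ x ∈ S, ‖e x‖ ≤ ‖fs S e o‖ := h1.trans (mul_le_of_le_one_right (norm_nonneg _) hf1)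
  rw [div_mul_eq_mul_div, le_div_iff₀ hs]
  linarith

/-- the quantitative Schur property with an absolute constant -/
theorem schur {s : ℝ} (hs : 0 < s) (hsep : ∀ x y : M, x ≠ y → s ≤ dist x y) : CSchur 𝕜 (LipFree 𝕜 M o) 114 := by
  classical
  rintro x ⟨B, hB⟩
  by_contra hcon
  push Not at hcon
  have hfin : dl 𝕜 x ≠ ⊤ := by
    intro h
    rw [h] at hcon
    have : ((114 : ℝ≥0) : ℝ≥0∞) * ⊤ = ⊤ := ENNReal.mul_top (by norm_num)
    rw [this] at hcon
    exact not_top_lt hcon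
  set δ : ℝ := (dl 𝕜 x).toReal with hδ
  have hδ0 : 0 ≤ δ := ENNReal.toReal_nonneg
  have hdl : dl 𝕜 x = ENNReal.ofReal δ := (ENNReal.ofReal_toReal hfin).symm
  have h114 : ((114 : ℝ≥0) : ℝ≥0∞) * dl 𝕜 x = ENNReal.ofReal (114 * δ) := by
    rw [hdl, ENNReal.ofReal_mul (by norm_num)]
    congr 1
    norm_num
  rw [h114] at hcon
  obtain ⟨a, ha1, ha2⟩ : ∃ a : ℝ, 114 * δ < a ∧ ENNReal.ofReal a < ca x := by
    obtain ⟨q, hq1, hq2⟩ := ENNReal.lt_iff_exists_nnreal_btwn.mp hcon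
    refine ⟨q, ?_, by rwa [ENNReal.ofReal_coe_nnreal]⟩
    rw [← ENNReal.ofReal_coe_nnreal] at hq1
    exact (ENNReal.ofReal_lt_ofReal_iff_of_nonneg (by positivity)).mp hq1
  -- large differences
  have hex : ∀ j : ℕ, ∃ k l : ℕ, j ≤ k ∧ j ≤ l ∧ a < ‖x k - x l‖ := by
    intro j
    have h1 : ENNReal.ofReal a < ⨆ k : ℕ, ⨆ _ : j ≤ k, ⨆ l : ℕ, ⨆ _ : j ≤ l, ENNReal.ofReal ‖x k - x l‖ :=
      lt_of_lt_of_le ha2 (iInf_le _ j)
    simp only [lt_iSup_iff] at h1
    obtain ⟨k, hk, l, hl, h2⟩ := h1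
    refine ⟨k, l, hk, hl, ?_⟩
    by_contra h
    push Not at h
    exact absurd (ENNReal.ofReal_le_ofReal h) (not_le.mpr h2)
  choose k l hk hl hkl using hex
  set y : ℕ → LipFree 𝕜 M o := fun j => x (k j) - x (l j) with hy
  -- the weak condition
  have hyW : ∀ f : Lip0 𝕜 M o, ‖f‖ ≤ 1 → ∀ ε : ℝ, 0 < ε → ∀ᶠ j in atTop,
      ‖(y j).val.ap f‖ ≤ δ + ε := by
    intro f hf ε hε
    have h1 : ⨅ n : ℕ, ⨆ k : ℕ, ⨆ _ : n ≤ k, ⨆ l : ℕ, ⨆ _ : n ≤ l,
        ENNReal.ofReal ‖(evf f).ap (x k) - (evf f).ap (x l)‖ ≤ ENNReal.ofReal δ := by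
      rw [← hdl]
      exact le_iSup_of_le (evf f) (le_iSup_of_le ((evf_norm f).trans hf) le_rfl)
    have h2 : ENNReal.ofReal δ < ENNReal.ofReal (δ + ε) :=
      (ENNReal.ofReal_lt_ofReal_iff (by linarith)).mpr (by linarith)
    obtain ⟨n, hn⟩ := iInf_lt_iff.mp (lt_of_le_of_lt h1 h2)
    filter_upwards [eventually_ge_atTop n] with j hj
    have h3 : ENNReal.ofReal ‖(evf f).ap (x (k j)) - (evf f).ap (x (l j))‖ ≤ ENNReal.ofReal (δ + ε) := by
      refine le_trans ?_ hn.le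
      exact le_iSup_of_le (k j) (le_iSup_of_le (hj.trans (hk j)) (le_iSup_of_le (l j)
        (le_iSup_of_le (hj.trans (hl j)) le_rfl)))
    have h4 := (ENNReal.ofReal_le_ofReal_iff (by linarith)).mp h3
    rw [← Du.ap_vsub, evf_apply] at h4
    exact h4
  -- approximation
  have happ := fun j => approx (y j) (min (1 / ((j : ℝ) + 1)) (‖y j‖ - a)) (lt_min (by positivity) (by
    have := hkl j
    simp only [hy]
    linarith))
  choose S e hSo heS hap using happ
  have hap1 : ∀ j, ‖(y j).val - fs (S j) (e j) o‖ < 1 / ((j : ℝ) + 1) :=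
    fun j => (hap j).trans_le (min_le_left _ _)
  have hap2 : ∀ j, a < ‖fs (S j) (e j) o‖ := by
    intro j
    have h1 := (hap j).trans_le (min_le_right _ _)
    have h2 := norm_sub_norm_le (y j).val (fs (S j) (e j) o)
    have h3 : ‖(y j).val‖ = ‖y j‖ := rfl
    linarith
  have hy2 : ∀ j, ‖(y j).val‖ ≤ 2 * B := by
    intro j
    have h3 : ‖(y j).val‖ = ‖y j‖ := rfl
    rw [h3]
    have := norm_sub_le (x (k j)) (x (l j))
    simp only [hy]
    linarith [hB (k j), hB (l j)]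
  have hfsb : ∀ j, ‖fs (S j) (e j) o‖ ≤ 2 * B + 1 := by
    intro j
    have h1 := hap1 j
    have h2 := norm_sub_norm_le (fs (S j) (e j) o) (y j).val
    rw [norm_sub_rev] at h2
    have h3 : 1 / ((j : ℝ) + 1) ≤ 1 := by
      rw [div_le_one (by positivity)]; linarith [(Nat.cast_nonneg j : (0:ℝ) ≤ j)]
    linarith [hy2 j]
  -- norming functions
  have hnorm : ∀ j, ∃ f : Lip0 𝕜 M o, ‖f‖ < 1 ∧ a < ‖(fs (S j) (e j) o).ap f‖ := fun j =>
    ContinuousLinearMap.exists_lt_apply_of_lt_opNorm (fs (S j) (e j) o).cl (hap2 j)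
  choose g hg1 hg2 using hnorm
  have hmain := main_est o hs hsep S e heS (T := 2 / s * (2 * B + 1)) (fun j =>
    (tv_le hs hsep (S j) (e j) (hSo j)).trans (mul_le_mul_of_nonneg_left (hfsb j) (by positivity))) a δ
    (fun j => (g j).fn) (fun j => (g j).fn_base) (fun j x y => by
      have h1 := (g j).norm_sub_le x y
      refine h1.trans (mul_le_of_le_one_left dist_nonneg (hg1 j).le)) (fun j => by
      have := (hg2 j).le
      rwa [fs_apply] at this) (by
      intro f hf0 hf ε hε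
      have hf' : ∀ x y, ‖f x - f y‖ ≤ 1 * dist x y := by simpa using hf
      set F : Lip0 𝕜 M o := Lip0.mk f hf0 1 zero_le_one hf' with hF
      have hF1 : ‖F‖ ≤ 1 := Lip0.norm_le' F zero_le_one hf'
      have h1 := hyW F hF1 (ε / 2) (by positivity)
      have h2 : ∀ᶠ j : ℕ in atTop, 1 / ((j : ℝ) + 1) < ε / 2 :=
        tendsto_one_div_add_atTop_nhds_zero_nat.eventually_lt_const (by positivity)
      filter_upwards [h1, h2] with j hj1 hj2
      have h3 : ∑ x ∈ S j, e j x * f x = (fs (S j) (e j) o).ap F := by rw [fs_apply]; rfl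
      rw [h3]
      have h4 := ((y j).val - fs (S j) (e j) o).ap_le F
      have h5 : ‖((y j).val - fs (S j) (e j) o).ap F‖ ≤ 1 / ((j : ℝ) + 1) :=
        h4.trans ((mul_le_of_le_one_right (norm_nonneg _) hF1).trans (hap1 j).le)
      rw [Du.ap_sub] at h5
      have h6 := norm_sub_norm_le ((fs (S j) (e j) o).ap F) ((y j).val.ap F)
      rw [norm_sub_rev] at h6
      linarith)
  linarith

end free

end

end Pool.Agent.V8H58.FS
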